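import Pool.Agent.DWX.Contract

/-!
# The contraction of `C`
-/

set_option autoImplicit false

open LaurentPolynomial

universe u

namespace Pool.Agent.DWC

variable {k : Type u} [Field k]

/-- The `n`-th power of the ideal of the global functions which vanish on `C`. -/
noncomputable def Nbhd.mPow (X : Nbhd k) (n : ℕ) : Ideal X.R := X.m ^ n

/-- The same, as a subset of `B`. -/
def Nbhd.mSet (X : Nbhd k) (n : ℕ) : Set X.B := {b | ∃ r : X.R, r ∈ X.mPow n ∧ (r : X.B) = b}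

/-- The `S`-submodule of `B` generated by `s`. -/
def Nbhd.spanOver (X : Nbhd k) (S : Subalgebra k X.B) (s : Set X.B) : Set X.B :=
  Submodule.span S s

/-- The ring `R[t]`. -/
def Nbhd.adj (X : Nbhd k) (t : X.B) : Subalgebra k X.B :=
  Algebra.adjoin k ((X.R : Set X.B) ∪ {t})

/-- The ring `A` is a finite `R[t]`-module. -/
def Nbhd.FiniteOver (X : Nbhd k) (A : Subalgebra k X.B) (t : X.B) : Prop :=
  ∃ s : Finset X.B, (s : Set X.B) ⊆ A ∧ (A : Set X.B) ⊆ X.spanOver (X.adj t) s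

/-- `A ⊆ S`, and `A / 𝔪 ^ n A = S / 𝔪 ^ n S` for all `n`. -/
def Nbhd.IsCompletion (X : Nbhd k) (A S : Subalgebra k X.B) : Prop :=
  A ≤ S ∧ ∀ n : ℕ, (∀ b ∈ S, ∃ a ∈ A, b - a ∈ X.spanOver S (X.mSet n)) ∧
    ∀ a ∈ A, a ∈ X.spanOver S (X.mSet n) → a ∈ X.spanOver A (X.mSet n)

/-- `t ∈ R` and `A[1/t] = R[1/t]`. -/
def Nbhd.IsoAt (X : Nbhd k) (A : Subalgebra k X.B) (t : X.B) : Prop :=
  t ∈ X.R ∧ ∀ a ∈ A, ∃ n : ℕ, t ^ n * a ∈ X.R

/-- `A₀[1/x] = A₁[x]` in `B`, where `x ∈ A₀` and `1/x ∈ A₁`. -/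
structure Nbhd.Glue (X : Nbhd k) (A₀ A₁ : Subalgebra k X.B) (x : X.Bˣ) : Prop where
  x_mem : (x : X.B) ∈ A₀
  inv_mem : ((x⁻¹ : X.Bˣ) : X.B) ∈ A₁
  glue₀ : ∀ a ∈ A₀, ∃ n : ℕ, ((x⁻¹ : X.Bˣ) : X.B) ^ n * a ∈ A₁
  glue₁ : ∀ a ∈ A₁, ∃ n : ℕ, (x : X.B) ^ n * a ∈ A₀

/-- `H¹(Y, 𝒪) = 0` (the sections over `Y₀ ∩ Y₁` are the `a / x ^ n` with `a ∈ A₀`). -/
def Nbhd.H1Zero (X : Nbhd k) (A₀ A₁ : Subalgebra k X.B) (x : X.Bˣ) : Prop :=
  ∀ a ∈ A₀, ∀ n : ℕ, ∃ a₀ ∈ A₀, ∃ a₁ ∈ A₁, ((x⁻¹ : X.Bˣ) : X.B) ^ n * a = a₀ + a₁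

/-- A projective morphism of schemes `f : Y → Spec R` with `R f_* 𝒪_Y = 𝒪` such that `X` is the
formal completion of `Y` along the closed fibre.  The scheme `Y` is the union of `Y₀ = Spec A₀` and
`Y₁ = Spec A₁`, glued along the open subsets `x ≠ 0` of `Y₀` and `1 / x ≠ 0` of `Y₁`. -/
structure IsAlgebraization (X : Nbhd k) (A₀ A₁ : Subalgebra k X.B) (x : X.Bˣ) : Prop where
  glue : X.Glue A₀ A₁ x
  /-- `x` restricts to the coordinate `T` of `C` -/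
  res_x : X.res x = T 1
  /-- `Y` is finite over `ℙ¹_R = Spec R[x] ∪ Spec R[1/x]`, so `f` is projective -/
  finite₀ : X.FiniteOver A₀ (x : X.B)
  finite₁ : X.FiniteOver A₁ ((x⁻¹ : X.Bˣ) : X.B)
  /-- `H⁰(Y, 𝒪) = R` -/
  h0 : A₀ ⊓ A₁ = X.R
  /-- `H¹(Y, 𝒪) = 0` -/
  h1 : X.H1Zero A₀ A₁ x
  completion₀ : X.IsCompletion A₀ X.B₀
  completion₁ : X.IsCompletion A₁ X.B₁

/-- The ideal of `R` generated by the `t` and the `x t` with `t ∈ s`. -/
def Nbhd.idealOf (X : Nbhd k) (s : Finset X.B) (x : X.B) : Ideal X.R :=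
  Ideal.span {r : X.R | (r : X.B) ∈ s ∨ ∃ t ∈ s, (r : X.B) = x * t}

/-- `f : Y → Spec R` is an isomorphism outside the closed fibre: there are finitely many `t ∈ R`
with `x t ∈ R` such that the open sets `D(t)` and `D(x t)` cover the complement of the closed point
of `Spec R`, `A₀[1/t] = R[1/t]`, and `A₁[1/(x t)] = R[1/(x t)]`.  (Then `x = x t / t ∈ A₁[1/t]`,
so `f⁻¹ D(t)` is contained in `Y₀`, and it is `Spec A₀[1/t] = Spec R[1/t] = D(t)`; similarly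
`f⁻¹ D(x t) = D(x t)`.) -/
def IsoOutside (X : Nbhd k) (A₀ A₁ : Subalgebra k X.B) (x : X.Bˣ) : Prop :=
  ∃ (s : Finset X.B) (N : ℕ), (∀ t ∈ s, X.IsoAt A₀ t ∧ X.IsoAt A₁ (x * t)) ∧
    X.mPow N ≤ X.idealOf s x

/-- The closed fibre of `f` is `C` as a set: `𝔪 𝒪_X`, which is contained in the ideal of `C`,
contains a power of the ideal of `C`. -/
def FibreIs (X : Nbhd k) : Prop :=
  ∃ N : ℕ, X.pow₀ N ⊆ X.spanOver X.B₀ (X.mSet 1) ∧ X.pow₁ N ⊆ X.spanOver X.B₁ (X.mSet 1)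

/-- `f` is birational if `X` is integral and larger than `C`: there is `t ≠ 0` in `R` with
`A₀[1/t] = R[1/t] = A₁[1/t]`. -/
def Nbhd.Birational (X : Nbhd k) (A₀ A₁ : Subalgebra k X.B) : Prop :=
  IsDomain X.B → X.I ≠ ⊥ → ∃ t : X.B, t ≠ 0 ∧ X.IsoAt A₀ t ∧ X.IsoAt A₁ t

/-- `C` contracts to a point: `R = H⁰(X, 𝒪)` is a complete noetherian local ring with residue field
`k`, and there is a projective birational morphism of schemes `f : Y → Spec R` with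
`R f_* 𝒪_Y = 𝒪` such that `X` is the formal completion of `Y` along the closed fibre, the closed
fibre is `C` as a set, and `f` is an isomorphism outside the closed fibre. -/
structure ContractsTo (X : Nbhd k) : Prop where
  isLocal : IsLocalRing X.R
  noetherian : X.NoethR
  complete : X.CompleteR
  residue : ∀ r ∈ X.R, ∃ a : k, X.res r = C a
  fibre : FibreIs X
  exists_f : ∃ (A₀ A₁ : Subalgebra k X.B) (x : X.Bˣ), IsAlgebraization X A₀ A₁ x ∧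
    IsoOutside X A₀ A₁ x ∧ X.Birational A₀ A₁

end Pool.Agent.DWC
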