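import Pool.Agent.H37A.Main
import Pool.Agent.DWX.Main

/-!
# Algebraization: the last step
-/

set_option autoImplicit false

open LaurentPolynomial

universe u

namespace Pool.Agent.H37A

open Pool.Agent.DWC Pool.Agent.H23ISO

variable {k : Type u} [Field k] {X : Nbhd k}

theorem contractsTo_of_finVersal (hX : X.Formal) (h : FinVersal X) (hC : Contracts X) :
    ContractsTo X := by
  have hF := hX.isFormal
  have hL : LoewyBounded' X := loewyBounded_neg_one_of_finVersal h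
  obtain ⟨J, hc, hJo, hJ⟩ := exists_J hF hL
  have hle : J ≤ IC X := hc.le
  obtain ⟨hac, s, hs, h0, h1⟩ := acyclic_globGen hF hc hJo hJ (OX hF) J hJo hJ
  have hex := exists_c hF hc hJo hJ
  obtain ⟨N, hN⟩ := hJo
  refine contractsTo_of hX hC J N (fun c hc' => ?_) (fun g hg => ?_) s (fun g hg => ?_)
    (fun b hb hb' => h0 ⟨hb, (mem_V₀_OX hF b).2 hb'⟩)
    (fun b hb hb' => h1 ⟨hb, (mem_V₁_OX hF b).2 hb'⟩) hex
  · have h := Submodule.smul_mem_smul hc' (Submodule.mem_top (x := (1 : X.B)) (R := X.B))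
    have h2 : c • (1 : X.B) = c := by rw [smul_eq_mul, mul_one]
    rw [h2] at h
    exact hN h
  · obtain ⟨a, ha, c, hc', h⟩ := hac g hg
    exact ⟨a, (mem_V₀_OX hF a).1 ha.2, c, (mem_V₁_OX hF c).1 hc'.2, ha.1, hc'.1, h⟩
  · exact ⟨⟨(mem_V₀_OX hF g).1 (hs g hg).1.2, (mem_V₁_OX hF g).1 (hs g hg).2.2⟩,
      mem_IC.1 (hle (hs g hg).1.1)⟩

end Pool.Agent.H37A
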