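import Pool.Agent.H37A.Statement

/-!
# The contraction is birational
-/

set_option autoImplicit false

open LaurentPolynomial

universe u

namespace Pool.Agent.H37A

open Pool.Agent.DWC

variable {k : Type u} [Field k] {X : Nbhd k}

theorem birational_of (hX : X.Formal) (hf : FibreIs X) {A₀ A₁ : Subalgebra k X.B} {x : X.Bˣ}
    (h : IsoOutside X A₀ A₁ x) : X.Birational A₀ A₁ := by
  intro hdom hI
  obtain ⟨s, N, hs, hN⟩ := h
  -- `𝔪` is not zero
  have hm : X.m ≠ ⊥ := by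
    intro hm
    apply hI
    obtain ⟨M, hM, -⟩ := hf
    have h1 : ∀ b ∈ X.B₀, b ∈ X.I → b = 0 := by
      intro b hb hbI
      have h2 : b ^ M ∈ X.pow₀ M :=
        ⟨⟨b, hb⟩ ^ M, Ideal.pow_mem_pow (show (⟨b, hb⟩ : X.B₀) ∈ X.I₀ from hbI) M, rfl⟩
      have h3 := hM h2
      have h4 : Submodule.span X.B₀ (X.mSet 1) ≤ ⊥ := by
        rw [Submodule.span_le]
        rintro _ ⟨r, hr, rfl⟩
        rw [Nbhd.mPow, pow_one, hm] at hr
        have h5 : r = 0 := hr
        rw [h5]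
        exact Submodule.zero_mem _
      have h6 : b ^ M = 0 := h4 h3
      by_contra hne
      exact pow_ne_zero M hne h6
    rw [eq_bot_iff]
    intro b hb
    refine hX.separated b fun n => ?_
    obtain ⟨ν, c, hc, h2⟩ := hX.loc₀ (n + 1) b
    have h3 : (X.x : X.B) ^ ν * b + c = 0 := h1 _ h2 (X.I.add_mem (X.I.mul_mem_left _ hb)
      (Ideal.pow_le_self (Nat.succ_ne_zero n) hc))
    have h4 : b = -(((X.x⁻¹ : X.Bˣ) : X.B) ^ ν * c) := by
      have h5 : ((X.x⁻¹ : X.Bˣ) : X.B) ^ ν * ((X.x : X.B) ^ ν * b + c) = 0 := by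
        rw [h3, mul_zero]
      rw [mul_add, ← mul_assoc, ← mul_pow, Units.inv_mul, one_pow, one_mul] at h5
      exact eq_neg_of_add_eq_zero_left h5
    rw [h4]
    exact (X.I ^ n).neg_mem ((X.I ^ n).mul_mem_left _ (Ideal.pow_le_pow_right (Nat.le_succ n) hc))
  obtain ⟨t, ht, ht0⟩ : ∃ t ∈ s, t ≠ 0 := by
    by_contra hcon
    push Not at hcon
    apply hm
    have h1 : X.idealOf s x ≤ ⊥ := by
      rw [Nbhd.idealOf, Ideal.span_le]
      rintro r (hr | ⟨t, ht, hr⟩)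
      · exact Subtype.ext (hcon _ hr)
      · refine Subtype.ext ?_
        rw [hr, hcon t ht, mul_zero]
        rfl
    have h2 : X.m ^ N ≤ ⊥ := hN.trans h1
    rw [eq_bot_iff]
    intro r hr
    have h3 : r ^ N = 0 := h2 (Ideal.pow_mem_pow hr N)
    have h4 : (r : X.B) ^ N = 0 := congrArg Subtype.val h3
    by_contra hne
    exact pow_ne_zero N (fun h => hne (Subtype.ext h)) h4
  have h1 := hs t ht
  refine ⟨t * (x * t), mul_ne_zero ht0 (mul_ne_zero x.ne_zero ht0), ⟨?_, ?_⟩, ?_, ?_⟩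
  · exact X.R.mul_mem h1.1.1 h1.2.1
  · intro a ha
    obtain ⟨n, hn⟩ := h1.1.2 a ha
    refine ⟨n, ?_⟩
    rw [mul_pow, mul_comm (t ^ n), mul_assoc]
    exact X.R.mul_mem (X.R.pow_mem h1.2.1 n) hn
  · exact X.R.mul_mem h1.1.1 h1.2.1
  · intro a ha
    obtain ⟨n, hn⟩ := h1.2.2 a ha
    refine ⟨n, ?_⟩
    rw [mul_pow, mul_assoc]
    exact X.R.mul_mem (X.R.pow_mem h1.1.1 n) hn

end Pool.Agent.H37A
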