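import Mathlib

/-!
# Chevalley's theorem on decreasing sequences of submodules over a complete local ring
-/

set_option autoImplicit false

open IsLocalRing

universe u

namespace Pool.Agent.H37A

variable {R : Type*} [CommRing R] {M : Type*} [AddCommGroup M] [Module R M]

theorem isPrecomplete_of_finite (I : Ideal R) [IsPrecomplete I R] [Module.Finite R M] :
    IsPrecomplete I M := by
  rw [← AdicCompletion.of_surjective_iff]
  intro y
  obtain ⟨n, f, hf⟩ := Module.Finite.exists_fin' R M
  obtain ⟨z, rfl⟩ := AdicCompletion.map_surjective I hf y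
  choose w hw using fun i => AdicCompletion.of_surjective I R ((AdicCompletion.piEquivFin I n z) i)
  have hz : AdicCompletion.of I _ w = z := by
    apply (AdicCompletion.piEquivFin I n).injective
    funext i
    rw [← hw i, AdicCompletion.piEquivFin_apply]
    rfl
  exact ⟨f w, by rw [← hz, AdicCompletion.map_of]⟩

theorem isArtinianRing_quotient_pow [IsNoetherianRing R] [IsLocalRing R] (k : ℕ) :
    IsArtinianRing (R ⧸ maximalIdeal R ^ k) := by
  rcases Nat.eq_zero_or_pos k with rfl | hk
  · have : Subsingleton (R ⧸ maximalIdeal R ^ 0) :=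
      Ideal.Quotient.subsingleton_iff.2 (by rw [pow_zero, Ideal.one_eq_top])
    infer_instance
  · have hle : maximalIdeal R ^ k ≤ maximalIdeal R := Ideal.pow_le_self hk.ne'
    have : Nontrivial (R ⧸ maximalIdeal R ^ k) :=
      Ideal.Quotient.nontrivial_iff.2 (ne_top_of_le_ne_top (maximalIdeal.isMaximal R).ne_top hle)
    have : IsLocalRing (R ⧸ maximalIdeal R ^ k) :=
      IsLocalRing.of_surjective' _ Ideal.Quotient.mk_surjective
    rw [isArtinianRing_iff_isNilpotent_maximalIdeal]
    refine ⟨k, ?_⟩
    have h1 : maximalIdeal (R ⧸ maximalIdeal R ^ k) ≤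
        (maximalIdeal R).map (Ideal.Quotient.mk (maximalIdeal R ^ k)) := by
      intro x hx
      obtain ⟨y, rfl⟩ := Ideal.Quotient.mk_surjective x
      apply Ideal.mem_map_of_mem
      by_contra hy
      have hu : IsUnit y := by
        by_contra h
        exact hy h
      exact hx (hu.map _)
    have h2 := Ideal.pow_right_mono h1 k
    rw [← Ideal.map_pow, Ideal.map_quotient_self] at h2
    exact le_bot_iff.1 h2

theorem isArtinian_quotient_pow [IsNoetherianRing R] [IsLocalRing R] [Module.Finite R M] (k : ℕ) :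
    IsArtinian R (M ⧸ (maximalIdeal R ^ k • (⊤ : Submodule R M))) := by
  have := isArtinianRing_quotient_pow (R := R) k
  have h : IsArtinian (R ⧸ maximalIdeal R ^ k)
      (M ⧸ (maximalIdeal R ^ k • (⊤ : Submodule R M))) := inferInstance
  let l : (M ⧸ (maximalIdeal R ^ k • (⊤ : Submodule R M))) →ₛₗ[
      Ideal.Quotient.mk (maximalIdeal R ^ k)] (M ⧸ (maximalIdeal R ^ k • (⊤ : Submodule R M))) :=
    { toFun := id
      map_add' := fun _ _ => rfl
      map_smul' := fun _ _ => rfl }
  exact (l.isArtinian_iff_of_bijective Function.bijective_id).2 h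

/-- Chevalley's theorem: let `M` be a finitely generated module over a complete noetherian local
ring and `N 0 ⊇ N 1 ⊇ ⋯` submodules of `M`.  For every `k` some `N n` lies in
`⋂ i, N i + 𝔪 ^ k M`. -/
theorem chevalley' [IsNoetherianRing R] [IsLocalRing R] [IsAdicComplete (maximalIdeal R) R]
    [Module.Finite R M] (N : ℕ → Submodule R M) (hN : Antitone N) (k : ℕ) :
    ∃ n, N n ≤ (⨅ i, N i) ⊔ (maximalIdeal R ^ k • (⊤ : Submodule R M)) := by
  set P : ℕ → Submodule R M := fun j => maximalIdeal R ^ j • (⊤ : Submodule R M) with hP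
  have hPa : Antitone P := fun i j hij => Submodule.smul_mono_left (Ideal.pow_le_pow_right hij)
  have hst : ∀ j, ∃ n, ∀ i, N n ⊔ P j ≤ N i ⊔ P j := by
    intro j
    have := isArtinian_quotient_pow (R := R) (M := M) j
    let f : ℕ →o (Submodule R (M ⧸ P j))ᵒᵈ :=
      { toFun := fun n => OrderDual.toDual ((N n).map (P j).mkQ)
        monotone' := fun a b hab => OrderDual.toDual_le_toDual.2 (Submodule.map_mono (hN hab)) }
    obtain ⟨n, hn⟩ := IsArtinian.monotone_stabilizes f
    refine ⟨n, fun i => ?_⟩
    rcases le_total n i with h | h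
    · have h1 : (N n).map (P j).mkQ = (N i).map (P j).mkQ := OrderDual.toDual.injective (hn i h)
      have h2 := congrArg (Submodule.comap (P j).mkQ) h1
      rw [Submodule.comap_map_mkQ, Submodule.comap_map_mkQ] at h2
      rw [sup_comm, h2, sup_comm]
    · exact sup_le_sup_right (hN h) _
  choose c hc using hst
  refine ⟨c k, fun x hx => ?_⟩
  have hstep : ∀ j, ∀ y ∈ N (c j) ⊔ P j, ∃ y' ∈ N (c (j + 1)) ⊔ P (j + 1), y - y' ∈ P j := by
    intro j y hy
    obtain ⟨a, ha, b, hb, rfl⟩ := Submodule.mem_sup.1 (hc j (c (j + 1)) hy)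
    exact ⟨a, Submodule.mem_sup_left ha, by simpa using hb⟩
  choose! g hg1 hg2 using hstep
  let y : ℕ → M := fun j => Nat.rec x (fun i z => g (k + i) z) j
  have hy0 : y 0 = x := rfl
  have hys : ∀ j, y (j + 1) = g (k + j) (y j) := fun j => rfl
  have hy1 : ∀ j, y j ∈ N (c (k + j)) ⊔ P (k + j) := by
    intro j
    induction j with
    | zero => exact Submodule.mem_sup_left hx
    | succ j ih => rw [hys]; exact hg1 (k + j) _ ih
  have hy2 : ∀ j, y j - y (j + 1) ∈ P (k + j) := by
    intro j
    rw [hys]
    exact hg2 (k + j) _ (hy1 j)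
  have hy3 : ∀ i j, y i - y (i + j) ∈ P (k + i) := by
    intro i j
    induction j with
    | zero => simp
    | succ j ih =>
      have h1 := hPa (show k + i ≤ k + (i + j) by omega) (hy2 (i + j))
      have h2 := add_mem ih h1
      rwa [sub_add_sub_cancel] at h2
  have hprec : IsPrecomplete (maximalIdeal R) M := isPrecomplete_of_finite _
  obtain ⟨L, hL⟩ := hprec.prec (f := fun i => y (i - k)) (by
    intro m n hmn
    rw [SModEq.sub_mem]
    have h1 := hPa (show m ≤ k + (m - k) by omega) (hy3 (m - k) ((n - k) - (m - k)))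
    have h2 : (m - k) + ((n - k) - (m - k)) = n - k := by omega
    rwa [h2] at h1)
  have hL' : ∀ n, L - y (n - k) ∈ P n := by
    intro n
    have := (hL n).symm
    rwa [SModEq.sub_mem] at this
  have hLN : ∀ i, L ∈ N i := by
    intro i
    rw [← Submodule.Quotient.mk_eq_zero]
    apply IsHausdorff.haus (I := maximalIdeal R) (M := M ⧸ N i) inferInstance
    intro n
    rw [SModEq.zero]
    have h1 : L ∈ N i ⊔ P n := by
      have h2 : y (n - k) ∈ N i ⊔ P n := by
        have h3 := hc (k + (n - k)) i (hy1 (n - k))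
        exact sup_le_sup_left (hPa (show n ≤ k + (n - k) by omega)) _ h3
      have h4 := add_mem (Submodule.mem_sup_right (S := N i) (hL' n)) h2
      rwa [sub_add_cancel] at h4
    obtain ⟨a, ha, b, hb, hab⟩ := Submodule.mem_sup.1 h1
    have h5 : (Submodule.Quotient.mk L : M ⧸ N i) = (N i).mkQ b := by
      rw [← hab, Submodule.Quotient.mk_add, (Submodule.Quotient.mk_eq_zero _).2 ha, zero_add]
      rfl
    rw [h5]
    have h6 := Submodule.mem_map_of_mem (f := (N i).mkQ) hb
    rw [hP, Submodule.map_smul'', Submodule.map_top, Submodule.range_mkQ] at h6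
    exact h6
  have h7 := hL' k
  rw [Nat.sub_self, hy0] at h7
  have h8 := sub_mem (Submodule.mem_sup_left (T := P k) (Submodule.mem_iInf _ |>.2 hLN))
    (Submodule.mem_sup_right (S := ⨅ i, N i) h7)
  rwa [sub_sub_cancel] at h8

/-- Chevalley's theorem for a sequence with intersection zero. -/
theorem chevalley {A M : Type u} [CommRing A] [IsLocalRing A] [IsNoetherianRing A]
    [IsAdicComplete (IsLocalRing.maximalIdeal A) A] [AddCommGroup M] [Module A M]
    [Module.Finite A M] (N : ℕ → Submodule A M) (hN : Antitone N) (h0 : ⨅ n, N n = ⊥) (j : ℕ) :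
    ∃ n, N n ≤ (IsLocalRing.maximalIdeal A) ^ j • (⊤ : Submodule A M) := by
  obtain ⟨n, hn⟩ := chevalley' N hN j
  rw [h0, bot_sup_eq] at hn
  exact ⟨n, hn⟩

end Pool.Agent.H37A
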