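import Pool.Agent.DWC.Defs

/-!
# A coordinate `x` with `x ∈ B₀` and `1/x ∈ B₁`
-/

set_option autoImplicit false

open LaurentPolynomial

universe u

namespace Pool.Agent.H37A

open Pool.Agent.DWC

variable {k : Type u} [Field k] {X : Nbhd k}

/-- elements of `B₁` which restrict to `1` are units -/
theorem exists_inv₁ (hc : IsAdicComplete ((RingHom.ker X.res.toRingHom).comap
      (algebraMap X.B₁ X.B)) X.B₁) {u : X.B} (hu : u ∈ X.B₁) (hr : X.res u = 1) :
    ∃ v ∈ X.B₁, u * v = 1 := by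
  have h1 := IsAdicComplete.le_jacobson_bot ((RingHom.ker X.res.toRingHom).comap
      (algebraMap X.B₁ X.B))
  have h2 : (⟨u, hu⟩ - 1 : X.B₁) ∈ (RingHom.ker X.res.toRingHom).comap
      (algebraMap X.B₁ X.B) := by
    rw [Ideal.mem_comap, RingHom.mem_ker]
    change X.res (u - 1) = 0
    rw [map_sub, hr, map_one, sub_self]
  have h3 := Ideal.mem_jacobson_bot.1 (h1 h2) 1
  rw [mul_one, sub_add_cancel] at h3
  obtain ⟨v, hv⟩ := h3.exists_right_inv
  exact ⟨v, v.2, congrArg Subtype.val hv⟩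

theorem regInf_mul {f g : k[T;T⁻¹]} (hf : f ∈ RegInf k 0) (hg : g ∈ RegInf k 0) :
    f * g ∈ RegInf k 0 := by
  classical
  intro i hi
  by_contra hne
  have h := AddMonoidAlgebra.support_coeff_mul_subset f g (Finsupp.mem_support_iff.2 hne)
  obtain ⟨a, ha, b, hb, hab⟩ := Finset.mem_add.1 h
  have ha0 : a ≤ 0 := by
    by_contra hc
    exact Finsupp.mem_support_iff.1 ha (hf a (by omega))
  have hb0 : b ≤ 0 := by
    by_contra hc
    exact Finsupp.mem_support_iff.1 hb (hg b (by omega))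
  omega

theorem coeff_T_mul (f : k[T;T⁻¹]) (d i : ℤ) : (T d * f).coeff i = f.coeff (i - d) := by
  induction f using LaurentPolynomial.induction_on' with
  | add p q hp hq =>
    rw [mul_add, AddMonoidAlgebra.coeff_add, AddMonoidAlgebra.coeff_add, Finsupp.add_apply,
      Finsupp.add_apply, hp, hq]
  | C_mul_T n a =>
    rw [mul_left_comm, ← T_add, ← single_eq_C_mul_T, ← single_eq_C_mul_T,
      AddMonoidAlgebra.coeff_single, AddMonoidAlgebra.coeff_single, Finsupp.single_apply,
      Finsupp.single_apply]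
    by_cases h : n = i - d
    · rw [if_pos h, if_pos (by omega)]
    · rw [if_neg h, if_neg (by omega)]

theorem exists_coord (hc : IsAdicComplete ((RingHom.ker X.res.toRingHom).comap
      (algebraMap X.B₁ X.B)) X.B₁) (s : Set X.B)
    (hs : ∀ b ∈ s, b ∈ X.B₀ ∧ (X.w : X.B) * b ∈ X.B₁)
    (hg : ((X.w⁻¹ : X.Bˣ) : X.B) ∈ Submodule.span X.B₁ s) :
    ∃ x : X.Bˣ, (x : X.B) ∈ X.B₀ ∧ ((x⁻¹ : X.Bˣ) : X.B) ∈ X.B₁ ∧ X.res x = T 1 ∧
      ∃ u ∈ X.B₁, ∃ v ∈ X.B₁, u * v = 1 ∧ ((x⁻¹ : X.Bˣ) : X.B) = X.w * v := by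
  have hwinv : X.res ((X.w⁻¹ : X.Bˣ) : X.B) = T 1 := by
    have h : X.res (X.w : X.B) * X.res ((X.w⁻¹ : X.Bˣ) : X.B) = 1 := by
      rw [← map_mul, Units.mul_inv, map_one]
    rw [X.res_w] at h
    calc X.res ((X.w⁻¹ : X.Bˣ) : X.B) = T 1 * (T (-1) * X.res ((X.w⁻¹ : X.Bˣ) : X.B)) := by
          rw [← mul_assoc, ← T_add, add_neg_cancel, T_zero, one_mul]
      _ = T 1 := by rw [h, mul_one]
  have hinf : ∀ b ∈ s, X.res b ∈ RegInf k 1 := by
    intro b hb i hi
    have h := X.res₁ _ (hs b hb).2 (i - 1) (by omega)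
    rw [map_mul, X.res_w, coeff_T_mul, sub_neg_eq_add, sub_add_cancel] at h
    exact h
  obtain ⟨σ, hσ, hσ1⟩ : ∃ σ ∈ s, (X.res σ).coeff 1 ≠ 0 := by
    by_contra hcon
    push Not at hcon
    have h : ∀ b ∈ Submodule.span X.B₁ s, X.res b ∈ RegInf k 0 := by
      intro b hb
      induction hb using Submodule.span_induction with
      | mem y hy =>
        intro i hi
        by_cases h1 : i = 1
        · rw [h1]
          exact hcon y hy
        · exact hinf y hy i (by omega)
      | zero =>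
        intro i _
        rw [map_zero]
        rfl
      | add y z _ _ hy hz =>
        intro i hi
        rw [map_add, AddMonoidAlgebra.coeff_add, Finsupp.add_apply, hy i hi, hz i hi, add_zero]
      | smul c y _ hy =>
        intro i hi
        change (X.res ((c : X.B) * y)).coeff i = 0
        rw [map_mul]
        exact regInf_mul (X.res₁ _ c.2) hy i hi
    have h1 := h _ hg 1 (by norm_num)
    rw [hwinv, T_apply, if_pos rfl] at h1
    exact one_ne_zero h1
  set α : k := (X.res σ).coeff 0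
  set β : k := (X.res σ).coeff 1 with hβ
  have hres : X.res σ = C α + C β * T 1 := by
    apply LaurentPolynomial.ext
    intro i
    rw [AddMonoidAlgebra.coeff_add, Finsupp.add_apply, C_apply, mul_comm, coeff_T_mul, C_apply]
    by_cases h0 : i = 0
    · subst h0
      simp [α]
    · rw [if_neg h0, zero_add]
      by_cases h1 : i = 1
      · subst h1
        simp [β]
      · rw [if_neg (by omega)]
        rcases lt_or_gt_of_ne h0 with h | h
        · exact X.res₀ _ (hs σ hσ).1 i h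
        · exact hinf σ hσ i (by omega)
  set y : X.B := algebraMap k X.B β⁻¹ * (σ - algebraMap k X.B α) with hy
  have hy0 : y ∈ X.B₀ := X.B₀.mul_mem (X.B₀.algebraMap_mem _)
    (X.B₀.sub_mem (hs σ hσ).1 (X.B₀.algebraMap_mem _))
  have hyr : X.res y = T 1 := by
    have hC : ∀ c : k, X.res (algebraMap k X.B c) = C c := fun c => by
      rw [AlgHom.commutes]
      rfl
    rw [hy, map_mul, map_sub, hC, hC, hres, add_sub_cancel_left, ← mul_assoc, ← map_mul,
      inv_mul_cancel₀ hσ1, map_one, one_mul]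
  have hwy : (X.w : X.B) * y ∈ X.B₁ := by
    have h : (X.w : X.B) * y = algebraMap k X.B β⁻¹ * ((X.w : X.B) * σ -
        (X.w : X.B) * algebraMap k X.B α) := by
      rw [hy]
      ring
    rw [h]
    exact X.B₁.mul_mem (X.B₁.algebraMap_mem _) (X.B₁.sub_mem (hs σ hσ).2
      (X.B₁.mul_mem X.w_mem (X.B₁.algebraMap_mem _)))
  obtain ⟨v, hv, huv⟩ := exists_inv₁ hc hwy (by
    rw [map_mul, X.res_w, hyr, ← T_add, neg_add_cancel, T_zero])
  refine ⟨⟨y, X.w * v, by rw [← huv]; ring, by rw [← huv]; ring⟩, hy0,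
    X.B₁.mul_mem X.w_mem hv, hyr, X.w * y, hwy, v, hv, huv, rfl⟩

end Pool.Agent.H37A
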