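import Mathlib

/-!
# Algebraization of a two-chart neighbourhood: definitions

`B₀`, `B₁` are subalgebras of `B`, `x ∈ B₀` is a unit of `B` with inverse in `B₁`,
`R = B₀ ∩ B₁`, `H n = B₀ ∩ x ^ n B₁` (the global sections of `𝒪(n)`), `A₀` is the union of the
`H n`, and `A₁` the union of the `x ^ (-n) (H n)`.
-/

set_option autoImplicit false

universe u

namespace Pool.Agent.H37A

variable {k B : Type u} [Field k] [CommRing B] [Algebra k B]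

/-- The assumptions: `x ∈ B₀`, `1/x ∈ B₁`, `R = B₀ ∩ B₁`, and `B = B₀ + B₁`. -/
structure Two (B₀ B₁ R : Subalgebra k B) (x : Bˣ) : Prop where
  mem : (x : B) ∈ B₀
  inv_mem : ((x⁻¹ : Bˣ) : B) ∈ B₁
  memR : ∀ b : B, b ∈ R ↔ b ∈ B₀ ∧ b ∈ B₁
  h1 : ∀ b : B, ∃ b₀ ∈ B₀, ∃ b₁ ∈ B₁, b = b₀ + b₁

variable {B₀ B₁ R : Subalgebra k B} {x : Bˣ}

theorem Two.symm (hT : Two B₀ B₁ R x) : Two B₁ B₀ R x⁻¹ where
  mem := hT.inv_mem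
  inv_mem := by
    rw [inv_inv]
    exact hT.mem
  memR := fun b => (hT.memR b).trans and_comm
  h1 := fun b => by
    obtain ⟨b₀, h0, b₁, h1, h⟩ := hT.h1 b
    exact ⟨b₁, h1, b₀, h0, by rw [h, add_comm]⟩

/-- The union of the `B₀ ∩ x ^ n B₁`. -/
def A₀ (hT : Two B₀ B₁ R x) : Subalgebra k B where
  carrier := {b | b ∈ B₀ ∧ ∃ n : ℕ, ((x⁻¹ : Bˣ) : B) ^ n * b ∈ B₁}
  mul_mem' := by
    rintro a b ⟨ha, n, hn⟩ ⟨hb, m, hm⟩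
    refine ⟨B₀.mul_mem ha hb, n + m, ?_⟩
    have h : ((x⁻¹ : Bˣ) : B) ^ (n + m) * (a * b) =
        (((x⁻¹ : Bˣ) : B) ^ n * a) * (((x⁻¹ : Bˣ) : B) ^ m * b) := by ring
    rw [h]
    exact B₁.mul_mem hn hm
  add_mem' := by
    rintro a b ⟨ha, n, hn⟩ ⟨hb, m, hm⟩
    refine ⟨B₀.add_mem ha hb, n + m, ?_⟩
    have h : ((x⁻¹ : Bˣ) : B) ^ (n + m) * (a + b) =
        ((x⁻¹ : Bˣ) : B) ^ m * (((x⁻¹ : Bˣ) : B) ^ n * a) +
          ((x⁻¹ : Bˣ) : B) ^ n * (((x⁻¹ : Bˣ) : B) ^ m * b) := by ring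
    rw [h]
    exact B₁.add_mem (B₁.mul_mem (B₁.pow_mem hT.inv_mem m) hn)
      (B₁.mul_mem (B₁.pow_mem hT.inv_mem n) hm)
  algebraMap_mem' := fun c => ⟨B₀.algebraMap_mem c, 0, by
    rw [pow_zero, one_mul]
    exact B₁.algebraMap_mem c⟩

/-- The union of the `B₁ ∩ x ^ (-n) B₀`. -/
abbrev A₁ (hT : Two B₀ B₁ R x) : Subalgebra k B := A₀ hT.symm

/-- The global sections `B₀ ∩ x ^ n B₁` of `𝒪(n)`. -/
def H (hT : Two B₀ B₁ R x) (n : ℕ) : Submodule R B where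
  carrier := {b | b ∈ B₀ ∧ ((x⁻¹ : Bˣ) : B) ^ n * b ∈ B₁}
  add_mem' := by
    rintro a b ⟨ha, hn⟩ ⟨hb, hm⟩
    exact ⟨B₀.add_mem ha hb, by rw [mul_add]; exact B₁.add_mem hn hm⟩
  zero_mem' := ⟨B₀.zero_mem, by rw [mul_zero]; exact B₁.zero_mem⟩
  smul_mem' := by
    rintro ⟨r, hr⟩ b ⟨hb, hn⟩
    obtain ⟨h0, h1⟩ := (hT.memR r).1 hr
    refine ⟨B₀.mul_mem h0 hb, ?_⟩
    have h : ((x⁻¹ : Bˣ) : B) ^ n * ((⟨r, hr⟩ : R) • b) =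
      r * (((x⁻¹ : Bˣ) : B) ^ n * b) := by
      change ((x⁻¹ : Bˣ) : B) ^ n * (r * b) = r * (((x⁻¹ : Bˣ) : B) ^ n * b)
      ring
    rw [h]
    exact B₁.mul_mem h1 hn

/-- The elements of an ideal of `R`, as a subset of `B`. -/
def img (I : Ideal R) : Set B := (fun r : R => (r : B)) '' I

end Pool.Agent.H37A
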