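import Pool.Agent.H37A.Defs

/-!
# Algebraization: density of `A₀` in `B₀`
-/

set_option autoImplicit false

universe u

namespace Pool.Agent.H37A

variable {k B : Type u} [Field k] [CommRing B] [Algebra k B] {B₀ B₁ R : Subalgebra k B} {x : Bˣ}

theorem R_le_A₀ (hT : Two B₀ B₁ R x) {r : B} (hr : r ∈ R) : r ∈ A₀ hT :=
  ⟨((hT.memR r).1 hr).1, 0, by rw [pow_zero, one_mul]; exact ((hT.memR r).1 hr).2⟩

theorem span_mul_img {S : Subalgebra k B} (m m' : Ideal R) {e r : B}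
    (he : e ∈ Submodule.span S (img m)) (hr : r ∈ img m') :
    e * r ∈ Submodule.span S (img (m * m')) := by
  obtain ⟨r, hr, rfl⟩ := hr
  refine Submodule.span_induction (p := fun e _ => e * (r : B) ∈
    Submodule.span S (img (m * m'))) ?_ ?_ ?_ ?_ he
  · rintro _ ⟨s, hs, rfl⟩
    exact Submodule.subset_span ⟨s * r, Ideal.mul_mem_mul hs hr, rfl⟩
  · rw [zero_mul]; exact Submodule.zero_mem _
  · intro a b _ _ ha hb
    rw [add_mul]; exact Submodule.add_mem _ ha hb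
  · intro c a _ ha
    have h : (c • a) * (r : B) = c • (a * (r : B)) := smul_mul_assoc c a _
    rw [h]
    exact Submodule.smul_mem _ c ha

/-- First half of (6), `B₀ = A₀ + 𝔪 ^ n B₀`. -/
theorem dense₀ (hT : Two B₀ B₁ R x) (m : Ideal R) (J : Ideal B)
    (hloc : ∀ b : B, ∃ ν : ℕ, ∃ c ∈ J, ((x⁻¹ : Bˣ) : B) ^ ν * b + c ∈ B₁)
    (hJ : ∀ g ∈ J, ∃ a ∈ B₀, ∃ c ∈ B₁, a ∈ J ∧ c ∈ J ∧ g = a + c)
    (hg : ∀ b ∈ J, b ∈ B₀ → b ∈ Submodule.span B₀ (img m)) (n : ℕ) (b : B) (hb : b ∈ B₀) :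
    ∃ a ∈ A₀ hT, b - a ∈ Submodule.span B₀ (img (m ^ n)) := by
  have one : ∀ b ∈ B₀, ∃ a ∈ A₀ hT, b - a ∈ Submodule.span B₀ (img m) := by
    intro b hb
    obtain ⟨ν, c, hc, h⟩ := hloc b
    obtain ⟨p, hp, q, hq, hpJ, -, hpq⟩ := hJ ((x : B) ^ ν * c) (J.mul_mem_left _ hc)
    refine ⟨b + p, ⟨B₀.add_mem hb hp, ν, ?_⟩, ?_⟩
    · have h1 : ((x⁻¹ : Bˣ) : B) ^ ν * (b + p) =
          (((x⁻¹ : Bˣ) : B) ^ ν * b + c) - ((x⁻¹ : Bˣ) : B) ^ ν * q := by
        have h2 : ((x⁻¹ : Bˣ) : B) ^ ν * ((x : B) ^ ν * c) = c := by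
          rw [← mul_assoc, ← mul_pow, Units.inv_mul, one_pow, one_mul]
        rw [hpq] at h2
        linear_combination h2
      rw [h1]
      exact B₁.sub_mem h (B₁.mul_mem (B₁.pow_mem hT.inv_mem ν) hq)
    · rw [show b - (b + p) = -p by ring]
      exact Submodule.neg_mem _ (hg p hpJ hp)
  have step : ∀ n, ∀ y ∈ Submodule.span B₀ (img (m ^ n)), ∀ c ∈ B₀, ∃ a ∈ A₀ hT,
      c * y - a ∈ Submodule.span B₀ (img (m ^ (n + 1))) := by
    intro n y hy
    refine Submodule.span_induction (p := fun y _ => ∀ c ∈ B₀, ∃ a ∈ A₀ hT,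
      c * y - a ∈ Submodule.span B₀ (img (m ^ (n + 1)))) ?_ ?_ ?_ ?_ hy
    · intro r hr c hc
      obtain ⟨a, ha, he⟩ := one c hc
      have hrR : r ∈ R := by
        obtain ⟨r, -, rfl⟩ := hr
        exact r.2
      refine ⟨a * r, (A₀ hT).mul_mem ha (R_le_A₀ hT hrR), ?_⟩
      rw [← sub_mul, pow_succ']
      exact span_mul_img m (m ^ n) he hr
    · intro c _
      exact ⟨0, (A₀ hT).zero_mem, by rw [mul_zero, sub_zero]; exact Submodule.zero_mem _⟩
    · intro y y' _ _ hy hy' c hc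
      obtain ⟨a, ha, h⟩ := hy c hc
      obtain ⟨a', ha', h'⟩ := hy' c hc
      refine ⟨a + a', (A₀ hT).add_mem ha ha', ?_⟩
      rw [show c * (y + y') - (a + a') = (c * y - a) + (c * y' - a') by ring]
      exact Submodule.add_mem _ h h'
    · intro d y _ hy c hc
      obtain ⟨a, ha, h⟩ := hy (c * d) (B₀.mul_mem hc d.2)
      refine ⟨a, ha, ?_⟩
      rw [show c * (d • y) = c * d * y from (mul_assoc c (d : B) y).symm]
      exact h
  induction n with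
  | zero =>
    refine ⟨0, (A₀ hT).zero_mem, ?_⟩
    rw [sub_zero]
    have h1 : b = (⟨b, hb⟩ : B₀) • (1 : B) := (mul_one b).symm
    rw [h1, pow_zero]
    exact Submodule.smul_mem _ _ (Submodule.subset_span ⟨1, by simp, rfl⟩)
  | succ n ih =>
    obtain ⟨a, ha, h⟩ := ih
    obtain ⟨a', ha', h'⟩ := step n _ h 1 B₀.one_mem
    refine ⟨a + a', (A₀ hT).add_mem ha ha', ?_⟩
    rw [show b - (a + a') = 1 * (b - a) - a' by ring]
    exact h'

end Pool.Agent.H37A
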