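import Pool.Agent.H37A.PkgH

/-!
# Algebraization: the ideal of the fibre is open
-/

set_option autoImplicit false

universe u

namespace Pool.Agent.H37A

variable {k B : Type u} [Field k] [CommRing B] [Algebra k B] {B₀ B₁ R : Subalgebra k B} {x : Bˣ}

namespace Iso

theorem one_mem_H (hT : Two B₀ B₁ R x) (n : ℕ) : (1 : B) ∈ H hT n :=
  ⟨B₀.one_mem, by
    rw [mul_one]
    exact B₁.pow_mem hT.inv_mem n⟩

theorem mul_mem_H (hT : Two B₀ B₁ R x) {m n : ℕ} {a b : B} (ha : a ∈ H hT m)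
    (hb : b ∈ H hT n) : a * b ∈ H hT (m + n) := by
  refine ⟨B₀.mul_mem ha.1 hb.1, ?_⟩
  have h : ((x⁻¹ : Bˣ) : B) ^ (m + n) * (a * b) =
      (((x⁻¹ : Bˣ) : B) ^ m * a) * (((x⁻¹ : Bˣ) : B) ^ n * b) := by ring
  rw [h]
  exact B₁.mul_mem ha.2 hb.2

theorem mul_mem_smul (hT : Two B₀ B₁ R x) (I : Ideal R) {m n : ℕ} {a b : B}
    (ha : a ∈ H hT m) (hb : b ∈ I • H hT n) : a * b ∈ I • H hT (m + n) := by
  refine Submodule.smul_induction_on hb (fun r hr h hh => ?_) (fun u v hu hv => ?_)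
  · rw [mul_smul_comm]
    exact Submodule.smul_mem_smul hr (mul_mem_H hT ha hh)
  · rw [mul_add]
    exact Submodule.add_mem _ hu hv

theorem mul_mem_sup (hT : Two B₀ B₁ R x) (I K : Ideal R) {m n : ℕ} {a b : B}
    (ha : a ∈ H hT m) (hb : b ∈ I • H hT n ⊔ K • H hT n) :
    a * b ∈ I • H hT (m + n) ⊔ K • H hT (m + n) := by
  obtain ⟨u, hu, v, hv, rfl⟩ := Submodule.mem_sup.1 hb
  rw [mul_add]
  exact Submodule.add_mem_sup (mul_mem_smul hT I ha hu) (mul_mem_smul hT K ha hv)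

/-- The multiples of the elements of an ideal lie in `I H n` for some `n`. -/
theorem exists_mem_smul (hT : Two B₀ B₁ R x) (I : Ideal R) {b : B}
    (hb : b ∈ Submodule.span (A₀ hT) (img I)) : ∃ n, b ∈ I • H hT n := by
  induction hb using Submodule.span_induction with
  | mem b hb =>
    obtain ⟨r, hr, rfl⟩ := hb
    refine ⟨0, ?_⟩
    have := Submodule.smul_mem_smul (I := I) hr (one_mem_H hT 0)
    rwa [show (r • (1 : B)) = (r : B) from mul_one _] at this
  | zero => exact ⟨0, Submodule.zero_mem _⟩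
  | add b c _ _ hb hc =>
    obtain ⟨n, hn⟩ := hb
    obtain ⟨m, hm⟩ := hc
    exact ⟨max n m, Submodule.add_mem _
      (Submodule.smul_mono le_rfl (H_mono hT (le_max_left n m)) hn)
      (Submodule.smul_mono le_rfl (H_mono hT (le_max_right n m)) hm)⟩
  | smul a b _ hb =>
    obtain ⟨n, hn⟩ := hb
    obtain ⟨m, hm⟩ := (mem_A₀ hT _).1 a.2
    exact ⟨m + n, mul_mem_smul hT I hm hn⟩

theorem span_le_A₀ (hT : Two B₀ B₁ R x) (I : Ideal R) {b : B}
    (hb : b ∈ Submodule.span (A₀ hT) (img I)) : b ∈ A₀ hT := by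
  obtain ⟨n, hn⟩ := exists_mem_smul hT I hb
  exact (mem_A₀ hT b).2 ⟨n, Submodule.smul_le_right hn⟩

/-- Finitely many elements. -/
theorem exists_common [IsNoetherianRing R] (U : ℕ → Submodule R B) (hU : Monotone U)
    (K : Ideal R) (h : ∀ r ∈ K, ∃ n, (r : B) ∈ U n) : ∃ n, 0 < n ∧ ∀ r ∈ K, (r : B) ∈ U n := by
  classical
  obtain ⟨s, hs⟩ := (isNoetherianRing_iff_ideal_fg R).1 inferInstance K
  have hs' : ∀ r ∈ s, r ∈ K := fun r hr => by
    rw [← hs]
    exact Ideal.subset_span hr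
  choose! f hf using h
  refine ⟨s.sup f + 1, Nat.succ_pos _, ?_⟩
  have key : K ≤ (U (s.sup f + 1)).comap (Algebra.linearMap R B) := by
    rw [← hs]
    refine Submodule.span_le.2 fun r hr => ?_
    exact hU ((Finset.le_sup hr).trans (Nat.le_succ _)) (hf r (hs' r hr))
  exact fun r hr => key hr

theorem approx (hT : Two B₀ B₁ R x) (I K : Ideal R)
    (hd : ∀ b ∈ B₀, ∃ a ∈ A₀ hT, b - a ∈ Submodule.span B₀ (img K)) {b : B}
    (hb : b ∈ Submodule.span B₀ (img I)) :
    ∃ a ∈ Submodule.span (A₀ hT) (img I), b - a ∈ Submodule.span B₀ (img K) := by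
  induction hb using Submodule.span_induction with
  | mem b hb =>
    exact ⟨b, Submodule.subset_span hb, by rw [sub_self]; exact Submodule.zero_mem _⟩
  | zero => exact ⟨0, Submodule.zero_mem _, by rw [sub_self]; exact Submodule.zero_mem _⟩
  | add b c _ _ hb hc =>
    obtain ⟨a, ha, ha'⟩ := hb
    obtain ⟨d, hd, hd'⟩ := hc
    refine ⟨a + d, Submodule.add_mem _ ha hd, ?_⟩
    rw [add_sub_add_comm]
    exact Submodule.add_mem _ ha' hd'
  | smul β b _ hb =>
    obtain ⟨a, ha, ha'⟩ := hb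
    obtain ⟨α, hα, hα'⟩ := hd β β.2
    refine ⟨α * a, Submodule.smul_mem _ (⟨α, hα⟩ : A₀ hT) ha, ?_⟩
    have ha0 : a ∈ B₀ := (span_le_A₀ hT I ha).1
    have h : β • b - α * a = β • (b - a) + (⟨a, ha0⟩ : B₀) • ((β : B) - α) := by
      change (β : B) * b - α * a = (β : B) * (b - a) + a * ((β : B) - α)
      ring
    rw [h]
    exact Submodule.add_mem _ (Submodule.smul_mem _ _ ha') (Submodule.smul_mem _ _ hα')

theorem exists_sup (hT : Two B₀ B₁ R x) [IsNoetherianRing R] (I K L : Ideal R)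
    (hd : ∀ b ∈ B₀, ∃ a ∈ A₀ hT, b - a ∈ Submodule.span B₀ (img K))
    (hc : ∀ a ∈ A₀ hT, a ∈ Submodule.span B₀ (img K) → a ∈ Submodule.span (A₀ hT) (img K))
    (ht : ∀ r ∈ L, (r : B) ∈ Submodule.span B₀ (img I)) :
    ∃ n, 0 < n ∧ ∀ r ∈ L, (r : B) ∈ I • H hT n ⊔ K • H hT n := by
  refine exists_common (fun n => I • H hT n ⊔ K • H hT n) ?_ L fun r hr => ?_
  · intro m n h
    exact sup_le_sup (Submodule.smul_mono le_rfl (H_mono hT h))
      (Submodule.smul_mono le_rfl (H_mono hT h))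
  · obtain ⟨a, ha, hra⟩ := approx hT I K hd (ht r hr)
    have hrA : (r : B) ∈ A₀ hT := (mem_A₀ hT _).2 ⟨0, by
      have := (H hT 0).smul_mem r (one_mem_H hT 0)
      rwa [show (r • (1 : B)) = (r : B) from mul_one _] at this⟩
    have h1 := hc _ ((A₀ hT).sub_mem hrA (span_le_A₀ hT I ha)) hra
    obtain ⟨n, hn⟩ := exists_mem_smul hT I ha
    obtain ⟨m, hm⟩ := exists_mem_smul hT K h1
    refine ⟨max n m, ?_⟩
    rw [← add_sub_cancel a (r : B)]
    exact Submodule.add_mem_sup (Submodule.smul_mono le_rfl (H_mono hT (le_max_left n m)) hn)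
      (Submodule.smul_mono le_rfl (H_mono hT (le_max_right n m)) hm)

theorem symm_smul (hT : Two B₀ B₁ R x) (I : Ideal R) {n : ℕ} {b : B}
    (hb : b ∈ I • H hT.symm n) : (x : B) ^ n * b ∈ I • H hT n := by
  refine Submodule.smul_induction_on hb (fun r hr h hh => ?_) (fun u v hu hv => ?_)
  · rw [mul_smul_comm]
    refine Submodule.smul_mem_smul hr ⟨?_, ?_⟩
    · have := hh.2
      rwa [inv_inv] at this
    · rw [← mul_assoc, ← mul_pow, Units.inv_mul, one_pow, one_mul]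
      exact hh.1
  · rw [mul_add]
    exact Submodule.add_mem _ hu hv

theorem symm_sup (hT : Two B₀ B₁ R x) (I K : Ideal R) {n : ℕ} {b : B}
    (hb : b ∈ I • H hT.symm n ⊔ K • H hT.symm n) :
    (x : B) ^ n * b ∈ I • H hT n ⊔ K • H hT n := by
  obtain ⟨u, hu, v, hv, rfl⟩ := Submodule.mem_sup.1 hb
  rw [mul_add]
  exact Submodule.add_mem_sup (symm_smul hT I hu) (symm_smul hT K hv)

/-- Cayley–Hamilton -/
theorem mem_radical {A V : Type*} [CommRing A] [CommRing V] [Algebra A V]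
    (hinj : Function.Injective (algebraMap A V)) (P : Submodule A V) (hP : P.FG)
    (h1 : (1 : V) ∈ P) (I : Ideal A) (r : A) (hr : ∀ h ∈ P, r • h ∈ I • P) :
    r ∈ I.radical := by
  have hfin : Module.Finite A P := Module.Finite.iff_fg.2 hP
  have hmap : (I • (⊤ : Submodule A P)).map P.subtype = I • P := by
    rw [Submodule.map_smul'', Submodule.map_subtype_top]
  obtain ⟨p, hp, -, hco, hz⟩ :=
    LinearMap.exists_monic_and_natDegree_eq_and_coeff_mem_pow_and_aeval_eq_zero A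
      (algebraMap A (Module.End A P) r) I (by
        rintro _ ⟨h, rfl⟩
        have h2 := hr h h.2
        rw [← hmap] at h2
        obtain ⟨y, hy, he⟩ := h2
        have h3 : algebraMap A (Module.End A P) r h = y := by
          apply Subtype.ext
          rw [Module.algebraMap_end_apply]
          exact he.symm
        rw [h3]
        exact hy)
  rw [Polynomial.aeval_algebraMap_apply] at hz
  have h2 : (Polynomial.aeval r p) • (⟨1, h1⟩ : P) = 0 := by
    have := LinearMap.congr_fun hz (⟨1, h1⟩ : P)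
    rwa [Module.algebraMap_end_apply] at this
  have h3 : Polynomial.aeval r p = 0 := by
    apply hinj
    rw [map_zero, Algebra.algebraMap_eq_smul_one]
    exact congrArg Subtype.val h2
  rw [Polynomial.coe_aeval_eq_eval, Polynomial.eval_eq_sum_range, Finset.sum_range_succ,
    hp.coeff_natDegree, one_mul] at h3
  refine ⟨p.natDegree, ?_⟩
  rw [eq_neg_of_add_eq_zero_right h3]
  refine I.neg_mem (I.sum_mem fun i hi => ?_)
  rw [Finset.mem_range] at hi
  exact I.mul_mem_right _ (Ideal.pow_le_self (by omega) (hco i))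

end Iso

open Iso in
/-- PACKAGE ISO: if `𝔪 ^ M` is contained in `I B₀` and in `I B₁` then `𝔪 ^ N` is contained in
`I`. -/
theorem iso_aux (hT : Two B₀ B₁ R x) [IsLocalRing R] [IsNoetherianRing R] (h1 : (H hT 1).FG)
    (hd : ∀ n, ∀ b ∈ B₀, ∃ a ∈ A₀ hT,
      b - a ∈ Submodule.span B₀ (img ((IsLocalRing.maximalIdeal R) ^ n)))
    (hd' : ∀ n, ∀ b ∈ B₁, ∃ a ∈ A₁ hT,
      b - a ∈ Submodule.span B₁ (img ((IsLocalRing.maximalIdeal R) ^ n)))
    (hc : ∀ n, ∀ a ∈ A₀ hT,
      a ∈ Submodule.span B₀ (img ((IsLocalRing.maximalIdeal R) ^ n)) →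
      a ∈ Submodule.span (A₀ hT) (img ((IsLocalRing.maximalIdeal R) ^ n)))
    (hc' : ∀ n, ∀ a ∈ A₁ hT,
      a ∈ Submodule.span B₁ (img ((IsLocalRing.maximalIdeal R) ^ n)) →
      a ∈ Submodule.span (A₁ hT) (img ((IsLocalRing.maximalIdeal R) ^ n)))
    (I : Ideal R) (M : ℕ)
    (ht : ∀ r ∈ (IsLocalRing.maximalIdeal R) ^ M, (r : B) ∈ Submodule.span B₀ (img I))
    (ht' : ∀ r ∈ (IsLocalRing.maximalIdeal R) ^ M, (r : B) ∈ Submodule.span B₁ (img I)) :
    ∃ N, (IsLocalRing.maximalIdeal R) ^ N ≤ I := by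
  set m := IsLocalRing.maximalIdeal R with hm
  obtain ⟨n₀, hn₀, e₀⟩ := exists_sup hT I (m ^ (M + 1)) (m ^ M) (hd (M + 1)) (hc (M + 1)) ht
  obtain ⟨n₁, hn₁, e₁⟩ := exists_sup hT.symm I (m ^ (M + 1)) (m ^ M) (hd' (M + 1)) (hc' (M + 1))
    ht'
  -- a common exponent
  obtain ⟨c, hc0, f₀, f₁⟩ : ∃ c, 0 < c ∧
      (∀ r ∈ m ^ M, (r : B) ∈ I • H hT c ⊔ m ^ (M + 1) • H hT c) ∧
      ∀ r ∈ m ^ M, (x : B) ^ c * r ∈ I • H hT c ⊔ m ^ (M + 1) • H hT c := by
    refine ⟨max n₀ n₁, by omega, fun r hr => ?_, fun r hr => ?_⟩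
    · exact sup_le_sup (Submodule.smul_mono le_rfl (H_mono hT (le_max_left n₀ n₁)))
        (Submodule.smul_mono le_rfl (H_mono hT (le_max_left n₀ n₁))) (e₀ r hr)
    · refine symm_sup hT _ _ ?_
      exact sup_le_sup (Submodule.smul_mono le_rfl (H_mono hT.symm (le_max_right n₀ n₁)))
        (Submodule.smul_mono le_rfl (H_mono hT.symm (le_max_right n₀ n₁))) (e₁ r hr)
  have hP : (H hT (c + c)).FG := fg_H hT h1 _ (by omega)
  have hle : m ^ M • H hT (c + c) ≤ I • H hT (c + c) ⊔ m • (m ^ M • H hT (c + c)) := by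
    refine Submodule.smul_le.2 fun r hr h hh => ?_
    rw [← Submodule.smul_assoc, smul_eq_mul, ← pow_succ']
    obtain ⟨a, ha, b, hb, rfl⟩ := H_split hT hh
    have e : r • (a + (x : B) ^ c * b) = a * r + b * ((x : B) ^ c * r) := by
      change (r : B) * (a + (x : B) ^ c * b) = a * r + b * ((x : B) ^ c * r)
      ring
    rw [e]
    exact Submodule.add_mem _ (mul_mem_sup hT I _ ha (f₀ r hr)) (mul_mem_sup hT I _ hb (f₁ r hr))
  have hnoeth : IsNoetherian R (H hT (c + c)) := isNoetherian_of_fg_of_noetherian _ hP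
  have hfg : (m ^ M • H hT (c + c)).FG := isNoetherian_submodule.1 hnoeth _ Submodule.smul_le_right
  have hI : m ^ M • H hT (c + c) ≤ I • H hT (c + c) :=
    Submodule.le_of_le_smul_of_le_jacobson_bot hfg (IsLocalRing.maximalIdeal_le_jacobson _) hle
  have hrad : m ^ M ≤ I.radical := fun r hr =>
    mem_radical (A := R) (V := B) Subtype.val_injective _ hP (one_mem_H hT _) I r fun h hh =>
      hI (Submodule.smul_mem_smul hr hh)
  obtain ⟨n, hn⟩ := Ideal.exists_pow_le_of_le_radical_of_fg hrad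
    ((isNoetherianRing_iff_ideal_fg R).1 inferInstance _)
  exact ⟨M * n, by rw [pow_mul]; exact hn⟩

end Pool.Agent.H37A
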