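import Pool.Agent.H37A.Defs
import Pool.Agent.H37A.Chev

/-!
# The topology of `A₀`
-/

set_option autoImplicit false

universe u

namespace Pool.Agent.H37A

variable {k B : Type u} [Field k] [CommRing B] [Algebra k B] {B₀ B₁ R : Subalgebra k B} {x : Bˣ}

section basics

theorem img_mono {I J : Ideal R} (h : I ≤ J) : img I ⊆ img J := by
  rintro _ ⟨r, hr, rfl⟩
  exact ⟨r, h hr, rfl⟩

theorem mem_A₀_of_mem_R (hT : Two B₀ B₁ R x) {r : B} (hr : r ∈ R) : r ∈ A₀ hT :=
  ⟨((hT.memR r).1 hr).1, 0, by rw [pow_zero, one_mul]; exact ((hT.memR r).1 hr).2⟩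

theorem x_mem_A₀ (hT : Two B₀ B₁ R x) : (x : B) ∈ A₀ hT :=
  ⟨hT.mem, 1, by rw [pow_one, Units.inv_mul]; exact B₁.one_mem⟩

theorem span_A₀_le (hT : Two B₀ B₁ R x) (I : Ideal R) {y : B}
    (hy : y ∈ Submodule.span (A₀ hT) (img I)) : y ∈ A₀ hT := by
  induction hy using Submodule.span_induction with
  | mem y hy =>
    obtain ⟨r, hr, rfl⟩ := hy
    exact mem_A₀_of_mem_R hT r.2
  | zero => exact zero_mem _
  | add a b _ _ ha hb => exact add_mem ha hb
  | smul c y _ hy => exact (A₀ hT).mul_mem c.2 hy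

theorem mul_mem_span (C : Subalgebra k B) (s : Set B) {c y : B} (hc : c ∈ C)
    (hy : y ∈ Submodule.span C s) : c * y ∈ Submodule.span C s :=
  Submodule.smul_mem _ (⟨c, hc⟩ : C) hy

/-- `I B = I B₀ + I B₁`. -/
theorem split_ideal (hT : Two B₀ B₁ R x) (I : Ideal R) {y : B} (hy : y ∈ Ideal.span (img I)) :
    ∃ p ∈ Submodule.span B₀ (img I), ∃ q ∈ Submodule.span B₁ (img I), y = p + q := by
  have key : ∀ b : B, ∃ p ∈ Submodule.span B₀ (img I), ∃ q ∈ Submodule.span B₁ (img I),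
      b * y = p + q := by
    induction hy using Submodule.span_induction with
    | mem g hg =>
      intro b
      obtain ⟨b₀, h0, b₁, h1, rfl⟩ := hT.h1 b
      exact ⟨b₀ * g, mul_mem_span B₀ _ h0 (Submodule.subset_span hg), b₁ * g,
        mul_mem_span B₁ _ h1 (Submodule.subset_span hg), add_mul _ _ _⟩
    | zero => exact fun b => ⟨0, zero_mem _, 0, zero_mem _, by rw [mul_zero, add_zero]⟩
    | add y z _ _ hy hz =>
      intro b
      obtain ⟨p, hp, q, hq, h⟩ := hy b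
      obtain ⟨p', hp', q', hq', h'⟩ := hz b
      exact ⟨p + p', add_mem hp hp', q + q', add_mem hq hq', by rw [mul_add, h, h']; abel⟩
    | smul c y _ hy =>
      intro b
      obtain ⟨p, hp, q, hq, h⟩ := hy (b * c)
      exact ⟨p, hp, q, hq, by rw [← h, smul_eq_mul, mul_assoc]⟩
  obtain ⟨p, hp, q, hq, h⟩ := key 1
  exact ⟨p, hp, q, hq, by rw [← h, one_mul]⟩

theorem span_le_ideal (C : Subalgebra k B) (s : Set B) {y : B} (hy : y ∈ Submodule.span C s) :
    y ∈ Ideal.span s := by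
  induction hy using Submodule.span_induction with
  | mem y hy => exact Ideal.subset_span hy
  | zero => exact zero_mem _
  | add a b _ _ ha hb => exact add_mem ha hb
  | smul c y _ hy => exact Ideal.mul_mem_left _ _ hy

theorem span_le_alg (C : Subalgebra k B) (s : Set B) (hs : ∀ g ∈ s, g ∈ C) {y : B}
    (hy : y ∈ Submodule.span C s) : y ∈ C := by
  induction hy using Submodule.span_induction with
  | mem y hy => exact hs y hy
  | zero => exact zero_mem _
  | add a b _ _ ha hb => exact add_mem ha hb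
  | smul c y _ hy => exact C.mul_mem c.2 hy

theorem img_subset₀ (hT : Two B₀ B₁ R x) (I : Ideal R) : ∀ g ∈ img I, g ∈ B₀ := by
  rintro _ ⟨r, _, rfl⟩
  exact ((hT.memR _).1 r.2).1

theorem img_subset₁ (hT : Two B₀ B₁ R x) (I : Ideal R) : ∀ g ∈ img I, g ∈ B₁ := by
  rintro _ ⟨r, _, rfl⟩
  exact ((hT.memR _).1 r.2).2

theorem HI_split' (hT : Two B₀ B₁ R x) (I : Ideal R) {n : ℕ} {h : B}
    (h0 : h ∈ Submodule.span B₀ (img I))
    (h1 : ((x⁻¹ : Bˣ) : B) ^ (n + 1) * h ∈ Submodule.span B₁ (img I)) :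
    ∃ a b, (a ∈ Submodule.span B₀ (img I) ∧
      ((x⁻¹ : Bˣ) : B) * a ∈ Submodule.span B₁ (img I)) ∧
      (b ∈ Submodule.span B₀ (img I) ∧
        ((x⁻¹ : Bˣ) : B) ^ n * b ∈ Submodule.span B₁ (img I)) ∧ h = a + (x : B) * b := by
  have hI : ((x⁻¹ : Bˣ) : B) * h ∈ Ideal.span (img I) :=
    Ideal.mul_mem_left _ _ (span_le_ideal B₀ _ h0)
  obtain ⟨u₀, hu0, u₁, hu1, hu⟩ := split_ideal hT I hI
  have hx : (x : B) * ((x⁻¹ : Bˣ) : B) = 1 := x.mul_inv
  refine ⟨h - (x : B) * u₀, u₀, ⟨sub_mem h0 (mul_mem_span B₀ _ hT.mem hu0), ?_⟩, ⟨hu0, ?_⟩, by ring⟩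
  · have h2 : ((x⁻¹ : Bˣ) : B) * (h - (x : B) * u₀) = u₁ := by
      linear_combination hu - u₀ * hx
    rw [h2]
    exact hu1
  · have h2 : ((x⁻¹ : Bˣ) : B) ^ n * u₀ =
        ((x⁻¹ : Bˣ) : B) ^ (n + 1) * h - ((x⁻¹ : Bˣ) : B) ^ n * u₁ := by
      linear_combination (-((x⁻¹ : Bˣ) : B) ^ n) * hu
    rw [h2]
    exact sub_mem h1 (mul_mem_span B₁ _ (B₁.pow_mem hT.inv_mem n) hu1)

end basics

open IsLocalRing

section top

variable [IsLocalRing R] [IsNoetherianRing R] [IsAdicComplete (IsLocalRing.maximalIdeal R) R]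

/-- (i) -/
theorem top_one (hT : Two B₀ B₁ R x)
    (hsep : ∀ b : B, (∀ n, b ∈ Submodule.span B₀ (img ((maximalIdeal R) ^ n))) → b = 0) (j : ℕ) :
    ∃ n, ∀ r : R, (r : B) ∈ Submodule.span B₀ (img ((maximalIdeal R) ^ n)) →
      r ∈ maximalIdeal R ^ j := by
  let N : ℕ → Submodule R R := fun n =>
    { carrier := {r | (r : B) ∈ Submodule.span B₀ (img ((maximalIdeal R) ^ n))}
      add_mem' := by
        rintro a b ha hb
        exact (Submodule.span B₀ (img ((maximalIdeal R) ^ n))).add_mem ha hb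
      zero_mem' := (Submodule.span B₀ (img ((maximalIdeal R) ^ n))).zero_mem
      smul_mem' := fun c r hr => mul_mem_span B₀ _ ((hT.memR _).1 c.2).1 hr }
  have hN : Antitone N := fun a b hab r hr =>
    Submodule.span_mono (img_mono (Ideal.pow_le_pow_right hab)) hr
  have h0 : ⨅ n, N n = ⊥ := by
    rw [eq_bot_iff]
    intro r hr
    rw [Submodule.mem_iInf] at hr
    exact Subtype.ext (hsep (r : B) hr)
  obtain ⟨n, hn⟩ := chevalley N hN h0 j
  refine ⟨n, fun r hr => ?_⟩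
  have h1 := hn (show r ∈ N n from hr)
  rwa [Ideal.smul_top_eq_map, Algebra.algebraMap_self, Ideal.map_id] at h1

/-- (ii) -/
theorem top_two (hT : Two B₀ B₁ R x)
    (hsep : ∀ b : B, (∀ n, b ∈ Submodule.span B₀ (img ((maximalIdeal R) ^ n))) → b = 0) (j : ℕ) :
    ∃ n, j ≤ n ∧ ∀ b ∈ B₁, b ∈ Ideal.span (img ((maximalIdeal R) ^ n)) →
      b ∈ Submodule.span B₁ (img ((maximalIdeal R) ^ j)) := by
  obtain ⟨n, hn⟩ := top_one hT hsep j
  refine ⟨max n j, le_max_right _ _, fun b hb hbI => ?_⟩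
  obtain ⟨p, hp, q, hq, rfl⟩ := split_ideal hT _ hbI
  have hp0 : p ∈ B₀ := span_le_alg B₀ _ (img_subset₀ hT _) hp
  have hq1 : q ∈ B₁ := span_le_alg B₁ _ (img_subset₁ hT _) hq
  have hp1 : p ∈ B₁ := by
    have := sub_mem hb hq1
    rwa [add_sub_cancel_right] at this
  have hpR : p ∈ R := (hT.memR p).2 ⟨hp0, hp1⟩
  have h1 := hn ⟨p, hpR⟩ (Submodule.span_mono (img_mono (Ideal.pow_le_pow_right
    (le_max_left n j))) hp)
  exact add_mem (Submodule.subset_span ⟨⟨p, hpR⟩, h1, rfl⟩)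
    (Submodule.span_mono (img_mono (Ideal.pow_le_pow_right (le_max_right n j))) hq)

/-- (iv) -/
theorem top_four (hT : Two B₀ B₁ R x) (h1 : (H hT 1).FG)
    (hsep : ∀ b : B, (∀ n, b ∈ Submodule.span B₀ (img ((maximalIdeal R) ^ n))) → b = 0) (j : ℕ) :
    ∃ n, ∀ h : B, h ∈ Submodule.span B₀ (img ((maximalIdeal R) ^ n)) →
      ((x⁻¹ : Bˣ) : B) * h ∈ Submodule.span B₁ (img ((maximalIdeal R) ^ n)) →
        h ∈ Submodule.span (A₀ hT) (img ((maximalIdeal R) ^ j)) := by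
  have : Module.Finite R (H hT 1) := Module.Finite.iff_fg.2 h1
  let N : ℕ → Submodule R (H hT 1) := fun n =>
    { carrier := {h | (h : B) ∈ Submodule.span B₀ (img ((maximalIdeal R) ^ n)) ∧
        ((x⁻¹ : Bˣ) : B) * (h : B) ∈ Submodule.span B₁ (img ((maximalIdeal R) ^ n))}
      add_mem' := by
        rintro a b ⟨ha, ha'⟩ ⟨hb, hb'⟩
        refine ⟨add_mem ha hb, ?_⟩
        rw [Submodule.coe_add, mul_add]
        exact add_mem ha' hb'
      zero_mem' := ⟨zero_mem _, by rw [Submodule.coe_zero, mul_zero]; exact zero_mem _⟩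
      smul_mem' := by
        rintro c r ⟨hr, hr'⟩
        refine ⟨mul_mem_span B₀ _ ((hT.memR _).1 c.2).1 hr, ?_⟩
        have h2 : ((x⁻¹ : Bˣ) : B) * ((c • r : H hT 1) : B) =
            (c : B) * (((x⁻¹ : Bˣ) : B) * (r : B)) := by
          change ((x⁻¹ : Bˣ) : B) * ((c : B) * (r : B)) = _
          ring
        rw [h2]
        exact mul_mem_span B₁ _ ((hT.memR _).1 c.2).2 hr' }
  have hN : Antitone N := fun a b hab r hr =>
    ⟨Submodule.span_mono (img_mono (Ideal.pow_le_pow_right hab)) hr.1,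
      Submodule.span_mono (img_mono (Ideal.pow_le_pow_right hab)) hr.2⟩
  have h0 : ⨅ n, N n = ⊥ := by
    rw [eq_bot_iff]
    intro r hr
    rw [Submodule.mem_iInf] at hr
    exact Subtype.ext (hsep (r : B) fun n => (hr n).1)
  obtain ⟨n, hn⟩ := chevalley N hN h0 j
  refine ⟨n, fun h hh hh' => ?_⟩
  have hH : h ∈ H hT 1 := ⟨span_le_alg B₀ _ (img_subset₀ hT _) hh, by
    rw [pow_one]
    exact span_le_alg B₁ _ (img_subset₁ hT _) hh'⟩
  have h2 := hn (show (⟨h, hH⟩ : H hT 1) ∈ N n from ⟨hh, hh'⟩)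
  have h3 : ∀ z : H hT 1, z ∈ (maximalIdeal R ^ j • (⊤ : Submodule R (H hT 1))) →
      (z : B) ∈ Submodule.span (A₀ hT) (img ((maximalIdeal R) ^ j)) := by
    intro z hz
    induction hz using Submodule.smul_induction_on' with
    | smul r hr y _ =>
      have hy : (y : B) ∈ A₀ hT := ⟨y.2.1, 1, y.2.2⟩
      have h4 : ((r • y : H hT 1) : B) = (y : B) * (r : B) := by
        change (r : B) * (y : B) = _
        ring
      rw [h4]
      exact mul_mem_span (A₀ hT) _ hy (Submodule.subset_span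
        ⟨r, hr, rfl⟩)
    | add a _ b _ ha hb => exact add_mem ha hb
  exact h3 _ h2

end top

/-- PACKAGE TOP: second half of (6), `A₀ ∩ 𝔪 ^ n B₀ = 𝔪 ^ n A₀`. -/
theorem closed₀ (hT : Two B₀ B₁ R x) [IsLocalRing R] [IsNoetherianRing R]
    [IsAdicComplete (IsLocalRing.maximalIdeal R) R] (h1 : (H hT 1).FG)
    (hsep : ∀ b : B, (∀ n, b ∈ Submodule.span B₀
      (img ((IsLocalRing.maximalIdeal R) ^ n))) → b = 0)
    (hd : ∀ n, ∀ b ∈ B₀, ∃ a ∈ A₀ hT,
      b - a ∈ Submodule.span B₀ (img ((IsLocalRing.maximalIdeal R) ^ n)))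
    (n : ℕ) (a : B) (ha : a ∈ A₀ hT)
    (han : a ∈ Submodule.span B₀ (img ((IsLocalRing.maximalIdeal R) ^ n))) :
    a ∈ Submodule.span (A₀ hT) (img ((IsLocalRing.maximalIdeal R) ^ n)) := by
  -- (iii)
  obtain ⟨N', hN'⟩ := top_four hT h1 hsep n
  obtain ⟨N, hNN', hN⟩ := top_two hT hsep N'
  have hC : ∀ (j : ℕ) (y : B), y ∈ Submodule.span B₀ (img ((maximalIdeal R) ^ N')) →
      ((x⁻¹ : Bˣ) : B) ^ j * y ∈ Submodule.span B₁ (img ((maximalIdeal R) ^ N')) →
      y ∈ Submodule.span (A₀ hT) (img ((maximalIdeal R) ^ n)) := by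
    intro j
    induction j with
    | zero =>
      intro y hy hy'
      rw [pow_zero, one_mul] at hy'
      exact hN' y hy (mul_mem_span B₁ _ hT.inv_mem hy')
    | succ j ih =>
      intro y hy hy'
      obtain ⟨a, b, ⟨ha0, ha1⟩, ⟨hb0, hb1⟩, rfl⟩ := HI_split' hT _ hy hy'
      exact add_mem (hN' a ha0 ha1) (mul_mem_span (A₀ hT) _ (x_mem_A₀ hT) (ih b hb0 hb1))
  have hE : ∀ y ∈ A₀ hT, y ∈ Submodule.span B₀ (img ((maximalIdeal R) ^ N)) →
      y ∈ Submodule.span (A₀ hT) (img ((maximalIdeal R) ^ n)) := by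
    rintro y ⟨_, j, hj⟩ hyN
    refine hC j y (Submodule.span_mono (img_mono (Ideal.pow_le_pow_right hNN')) hyN)
      (hN _ hj (Ideal.mul_mem_left _ _ (span_le_ideal B₀ _ hyN)))
  -- (v)
  have hF : ∀ y ∈ Submodule.span B₀ (img ((maximalIdeal R) ^ n)),
      ∀ c : B₀, ∃ a' ∈ Submodule.span (A₀ hT) (img ((maximalIdeal R) ^ n)),
        (c : B) * y - a' ∈ Submodule.span B₀ (img ((maximalIdeal R) ^ N)) := by
    intro y hy
    induction hy using Submodule.span_induction with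
    | mem g hg =>
      intro c
      obtain ⟨a', ha', hca⟩ := hd N (c : B) c.2
      refine ⟨a' * g, mul_mem_span (A₀ hT) _ ha' (Submodule.subset_span hg), ?_⟩
      obtain ⟨r, hr, rfl⟩ := hg
      have h2 : (c : B) * (r : B) - a' * (r : B) = (r : B) * ((c : B) - a') := by ring
      change (c : B) * (r : B) - a' * (r : B) ∈ _
      rw [h2]
      exact mul_mem_span B₀ _ ((hT.memR _).1 r.2).1 hca
    | zero => exact fun c => ⟨0, zero_mem _, by rw [mul_zero, sub_zero]; exact zero_mem _⟩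
    | add y z _ _ hy hz =>
      intro c
      obtain ⟨a, ha, h⟩ := hy c
      obtain ⟨b, hb, h'⟩ := hz c
      refine ⟨a + b, add_mem ha hb, ?_⟩
      have h2 : (c : B) * (y + z) - (a + b) = ((c : B) * y - a) + ((c : B) * z - b) := by ring
      rw [h2]
      exact add_mem h h'
    | smul d y _ hy =>
      intro c
      obtain ⟨a, ha, h⟩ := hy (c * d)
      refine ⟨a, ha, ?_⟩
      have h2 : (c : B) * (d • y) = ((c * d : B₀) : B) * y := by
        change (c : B) * ((d : B) * y) = ((c : B) * (d : B)) * y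
        ring
      rw [h2]
      exact h
  obtain ⟨a', ha', h⟩ := hF a han 1
  have h2 : ((1 : B₀) : B) * a = a := by
    change (1 : B) * a = a
    rw [one_mul]
  rw [h2] at h
  have h3 := hE (a - a') (sub_mem ha (span_A₀_le hT _ ha')) h
  have h4 := add_mem h3 ha'
  rwa [sub_add_cancel] at h4

end Pool.Agent.H37A
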