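import Pool.Agent.H37A.Statement
import Pool.Agent.H37A.Coord
import Pool.Agent.H37A.Dense
import Pool.Agent.H37A.Iso
import Pool.Agent.H37A.Top
import Pool.Agent.H37A.Birat

/-!
# Algebraization of the contraction
-/

set_option autoImplicit false

open LaurentPolynomial

universe u

namespace Pool.Agent.H37A

open Pool.Agent.DWC

variable {k : Type u} [Field k] {X : Nbhd k}

/-- `𝔪` is the maximal ideal. -/
theorem m_eq [IsLocalRing X.R] (hr : ∀ r ∈ X.R, ∃ a : k, X.res r = C a) :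
    X.m = IsLocalRing.maximalIdeal X.R := by
  have hle : X.m ≤ IsLocalRing.maximalIdeal X.R := by
    refine IsLocalRing.le_maximalIdeal fun h => ?_
    have h1 : (1 : X.R) ∈ X.m := by rw [h]; trivial
    rw [Ideal.mem_comap, map_one, Nbhd.mem_I, map_one] at h1
    exact one_ne_zero h1
  refine le_antisymm hle fun r hr' => ?_
  obtain ⟨a, ha⟩ := hr r r.2
  have h2 : r - algebraMap k X.R a ∈ X.m := by
    rw [Ideal.mem_comap, Nbhd.mem_I]
    change X.res ((r : X.B) - algebraMap k X.B a) = 0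
    rw [map_sub, ha, AlgHom.commutes]
    exact sub_self _
  have h3 : algebraMap k X.R a ∈ IsLocalRing.maximalIdeal X.R := by
    have := (IsLocalRing.maximalIdeal X.R).sub_mem hr' (hle h2)
    rwa [sub_sub_cancel] at this
  have ha0 : a = 0 := by
    by_contra hne
    exact (IsLocalRing.mem_maximalIdeal _).1 h3 ((IsUnit.mk0 a hne).map (algebraMap k X.R))
  rw [Ideal.mem_comap, Nbhd.mem_I]
  change X.res (r : X.B) = 0
  rw [ha, ha0, map_zero]

theorem coe_mem_I_pow {n : ℕ} {r : X.R} (hr : r ∈ X.m ^ n) : (r : X.B) ∈ X.I ^ n := by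
  have h := Ideal.mem_map_of_mem (algebraMap X.R X.B) hr
  rw [Ideal.map_pow] at h
  exact Ideal.pow_right_mono Ideal.map_comap_le n h

theorem R_le₀ : X.R ≤ X.B₀ := inf_le_left

theorem R_le₁ : X.R ≤ X.B₁ := inf_le_right

theorem coe_mem_pow₀ {n : ℕ} {r : X.R} (hr : r ∈ X.m ^ n) : (r : X.B) ∈ X.pow₀ n := by
  have h := Ideal.mem_map_of_mem (Subalgebra.inclusion (R_le₀ (X := X))) hr
  rw [Ideal.map_pow] at h
  refine ⟨_, Ideal.pow_right_mono ?_ n h, rfl⟩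
  rw [Ideal.map_le_iff_le_comap]
  exact fun r hr => hr

theorem coe_mem_pow₁ {n : ℕ} {r : X.R} (hr : r ∈ X.m ^ n) : (r : X.B) ∈ X.pow₁ n := by
  have h := Ideal.mem_map_of_mem (Subalgebra.inclusion (R_le₁ (X := X))) hr
  rw [Ideal.map_pow] at h
  refine ⟨_, Ideal.pow_right_mono ?_ n h, rfl⟩
  rw [Ideal.map_le_iff_le_comap]
  exact fun r hr => hr

theorem img_eq (n : ℕ) : img (X.m ^ n) = X.mSet n := rfl

theorem span_img_le₀ {n : ℕ} {b : X.B} (hb : b ∈ Submodule.span X.B₀ (img (X.m ^ n))) :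
    b ∈ X.I ^ n := by
  have h : Submodule.span X.B₀ (img (X.m ^ n)) ≤ (X.I ^ n).restrictScalars X.B₀ := by
    rw [Submodule.span_le]
    rintro _ ⟨r, hr, rfl⟩
    exact coe_mem_I_pow hr
  exact h hb

theorem span_img_le₁ {n : ℕ} {b : X.B} (hb : b ∈ Submodule.span X.B₁ (img (X.m ^ n))) :
    b ∈ X.I ^ n := by
  have h : Submodule.span X.B₁ (img (X.m ^ n)) ≤ (X.I ^ n).restrictScalars X.B₁ := by
    rw [Submodule.span_le]
    rintro _ ⟨r, hr, rfl⟩
    exact coe_mem_I_pow hr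
  exact h hb

/-- Localization at another coordinate. -/
theorem loc_change (h0 : X.Loc₀) {x : X.B} (hx : x ∈ X.B₀) (hr : X.res x = T 1) (J : Ideal X.B)
    (N : ℕ) (hN : X.I ^ N ≤ J) (b : X.B) : ∃ ν : ℕ, ∃ c ∈ J, x ^ ν * b + c ∈ X.B₀ := by
  obtain ⟨M, c, hc, hM⟩ := h0 N b
  set δ := x - X.x with hδ
  have hδ0 : δ ∈ X.B₀ := X.B₀.sub_mem hx X.x_mem
  have hδI : δ ∈ X.I := by
    rw [Nbhd.mem_I, hδ, map_sub, hr, X.res_x, sub_self]
  have hp : ∀ b b' : X.B, (∃ c ∈ J, b + c ∈ X.B₀) → (∃ c ∈ J, b' + c ∈ X.B₀) →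
      ∃ c ∈ J, (b + b') + c ∈ X.B₀ := by
    rintro b b' ⟨c, hc, h⟩ ⟨c', hc', h'⟩
    refine ⟨c + c', J.add_mem hc hc', ?_⟩
    have h2 : (b + b') + (c + c') = (b + c) + (b' + c') := by ring
    rw [h2]
    exact X.B₀.add_mem h h'
  refine ⟨M + N, ?_⟩
  have hx' : x = X.x + δ := by rw [hδ]; ring
  rw [hx', add_pow, Finset.sum_mul]
  refine Finset.sum_induction _ (fun b => ∃ c ∈ J, b + c ∈ X.B₀) hp
    ⟨0, J.zero_mem, by rw [add_zero]; exact X.B₀.zero_mem⟩ fun j hj => ?_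
  rcases le_or_gt N (M + N - j) with h | h
  · refine ⟨-((X.x : X.B) ^ j * δ ^ (M + N - j) * ((M + N).choose j : X.B) * b), ?_, ?_⟩
    · have h1 : δ ^ (M + N - j) ∈ J := hN (Ideal.pow_le_pow_right h (Ideal.pow_mem_pow hδI _))
      exact J.neg_mem (J.mul_mem_right _ (J.mul_mem_right _ (J.mul_mem_left _ h1)))
    · rw [add_neg_cancel]
      exact X.B₀.zero_mem
  · obtain ⟨i, hi⟩ : ∃ i, j = M + i := ⟨j - M, by omega⟩
    have h1 : (X.x : X.B) ^ i * δ ^ (M + N - j) * ((M + N).choose j : X.B) ∈ X.B₀ :=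
      X.B₀.mul_mem (X.B₀.mul_mem (X.B₀.pow_mem X.x_mem _) (X.B₀.pow_mem hδ0 _))
        (natCast_mem X.B₀ _)
    refine ⟨(X.x : X.B) ^ i * δ ^ (M + N - j) * ((M + N).choose j : X.B) * c,
      J.mul_mem_left _ (hN hc), ?_⟩
    have h2 : (X.x : X.B) ^ j * δ ^ (M + N - j) * ((M + N).choose j : X.B) * b +
        (X.x : X.B) ^ i * δ ^ (M + N - j) * ((M + N).choose j : X.B) * c =
        ((X.x : X.B) ^ i * δ ^ (M + N - j) * ((M + N).choose j : X.B)) *
          ((X.x : X.B) ^ M * b + c) := by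
      rw [hi]
      ring
    rw [h2]
    exact X.B₀.mul_mem h1 hM

theorem finiteOver_of {A : Subalgebra k X.B} {t : X.B}
    (h : ∃ s : Finset X.B, (∀ b ∈ s, b ∈ A) ∧ ∀ a ∈ A,
      a ∈ Submodule.span (Algebra.adjoin X.R {t}) (s : Set X.B)) : X.FiniteOver A t := by
  obtain ⟨s, hs, h⟩ := h
  refine ⟨s, hs, fun a ha => ?_⟩
  have h1 : ∀ c ∈ Algebra.adjoin X.R {t}, c ∈ X.adj t := by
    intro c hc
    induction hc using Algebra.adjoin_induction with
    | mem y hy => exact Algebra.subset_adjoin (Or.inr hy)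
    | algebraMap r => exact Algebra.subset_adjoin (Or.inl r.2)
    | add y z _ _ hy hz => exact (X.adj t).add_mem hy hz
    | mul y z _ _ hy hz => exact (X.adj t).mul_mem hy hz
  have h2 := h a ha
  change a ∈ Submodule.span (X.adj t) (s : Set X.B)
  clear ha
  induction h2 using Submodule.span_induction with
  | mem y hy => exact Submodule.subset_span hy
  | zero => exact Submodule.zero_mem _
  | add y z _ _ hy hz => exact Submodule.add_mem _ hy hz
  | smul c y _ hy => exact Submodule.smul_mem _ (⟨c, h1 c c.2⟩ : X.adj t) hy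

theorem span_mono' {S : Subalgebra k X.B} {s t : Set X.B} (h : ∀ b ∈ s, b ∈ Submodule.span S t)
    {b : X.B} (hb : b ∈ Submodule.span S s) : b ∈ Submodule.span S t :=
  (Submodule.span_le.2 h) hb

theorem contractsTo_of (hX : X.Formal) (hC : Contracts X) (J : Ideal X.B) (N : ℕ)
    (hN : X.I ^ N ≤ J)
    (hJ : ∀ g ∈ J, ∃ a ∈ X.B₀, ∃ c ∈ X.B₁, a ∈ J ∧ c ∈ J ∧ g = a + c)
    (s : Finset X.B) (hs : ∀ h ∈ s, h ∈ X.R ∧ X.res h = 0)
    (hg₀ : ∀ b ∈ J, b ∈ X.B₀ → b ∈ Submodule.span X.B₀ (s : Set X.B))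
    (hg₁ : ∀ b ∈ J, b ∈ X.B₁ → b ∈ Submodule.span X.B₁ (s : Set X.B))
    (hc : ∃ (v : ℕ) (c : Fin v → X.B), ∀ b : X.B, ∃ r : Fin v → X.B, ∃ b₀ ∈ X.B₀, ∃ b₁ ∈ X.B₁,
      (∀ i, r i ∈ X.B₀ ∧ r i ∈ X.B₁) ∧ b = b₀ + X.w * b₁ + ∑ i, r i * c i) :
    ContractsTo X := by
  have := hC.isLocal
  have : IsNoetherianRing X.R := hC.noetherian
  have hm := m_eq (X := X) hC.residue
  have hcomp : IsAdicComplete (IsLocalRing.maximalIdeal X.R) X.R := by
    rw [← hm]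
    exact hC.complete
  -- the coordinate
  obtain ⟨x, hx0, hx1, hxr, u, hu, v, hv, huv, hxv⟩ : ∃ x : X.Bˣ, (x : X.B) ∈ X.B₀ ∧
      ((x⁻¹ : X.Bˣ) : X.B) ∈ X.B₁ ∧ X.res x = T 1 ∧
      ∃ u ∈ X.B₁, ∃ v ∈ X.B₁, u * v = 1 ∧ ((x⁻¹ : X.Bˣ) : X.B) = X.w * v := by
    obtain ⟨s1, hs1, -, hs2⟩ := hC.ample
    refine exists_coord hX.complete₁ (s1 : Set X.B) (fun b hb => ?_) ?_
    · have h := hs1 hb
      exact ⟨h.1, by simpa using h.2⟩
    · have h := hs2 1 ⟨1, by rw [Nbhd.idealPow₁, pow_zero, Ideal.one_eq_top]; trivial, rfl⟩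
      rw [mul_one, zpow_neg, zpow_one] at h
      exact h
  have hwu : (X.w : X.B) = ((x⁻¹ : X.Bˣ) : X.B) * u := by
    rw [hxv, mul_assoc, mul_comm v u, huv, mul_one]
  have hT : Two X.B₀ X.B₁ X.R x := ⟨hx0, hx1, fun b => Iff.rfl, hC.h1⟩
  have hsep : ∀ b : X.B, (∀ n, b ∈ Submodule.span X.B₀
      (img ((IsLocalRing.maximalIdeal X.R) ^ n))) → b = 0 := by
    intro b hb
    rw [← hm] at hb
    exact hX.separated b fun n => span_img_le₀ (hb n)
  have hsep' : ∀ b : X.B, (∀ n, b ∈ Submodule.span X.B₁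
      (img ((IsLocalRing.maximalIdeal X.R) ^ n))) → b = 0 := by
    intro b hb
    rw [← hm] at hb
    exact hX.separated b fun n => span_img_le₁ (hb n)
  have himg : ∀ h ∈ s, h ∈ img (IsLocalRing.maximalIdeal X.R) := by
    intro h hh
    rw [← hm]
    exact ⟨⟨h, (hs h hh).1⟩, (hs h hh).2, rfl⟩
  -- `H 1`
  have hfg : (H hT 1).FG := by
    refine fg_H_one hT ?_
    obtain ⟨ν, c, hc⟩ := hc
    refine ⟨ν, c, fun b => ?_⟩
    obtain ⟨r, b₀, h0, b₁, h1, hr, hb⟩ := hc b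
    refine ⟨r, b₀, h0, u * b₁, X.B₁.mul_mem hu h1, hr, ?_⟩
    rw [hb, hwu]
    ring
  -- density
  have hd : ∀ n, ∀ b ∈ X.B₀, ∃ a ∈ A₀ hT,
      b - a ∈ Submodule.span X.B₀ (img ((IsLocalRing.maximalIdeal X.R) ^ n)) := by
    intro n b hb
    refine dense₀ hT _ J (fun b => ?_) hJ (fun b hb hb' =>
      span_mono' (fun h hh => Submodule.subset_span (himg h hh)) (hg₀ b hb hb')) n b hb
    obtain ⟨ν, c, hc, h⟩ := hX.loc₁ N b
    refine ⟨ν, v ^ ν * c, J.mul_mem_left _ (hN hc), ?_⟩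
    have h2 : ((x⁻¹ : X.Bˣ) : X.B) ^ ν * b + v ^ ν * c = v ^ ν * ((X.w : X.B) ^ ν * b + c) := by
      rw [hxv]
      ring
    rw [h2]
    exact X.B₁.mul_mem (X.B₁.pow_mem hv _) h
  have hd' : ∀ n, ∀ b ∈ X.B₁, ∃ a ∈ A₁ hT,
      b - a ∈ Submodule.span X.B₁ (img ((IsLocalRing.maximalIdeal X.R) ^ n)) := by
    intro n b hb
    refine dense₀ hT.symm _ J (fun b => ?_) (fun g hg => ?_) (fun b hb hb' =>
      span_mono' (fun h hh => Submodule.subset_span (himg h hh)) (hg₁ b hb hb')) n b hb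
    · rw [inv_inv]
      exact loc_change hX.loc₀ hx0 hxr J N hN b
    · obtain ⟨a, ha, c, hc, haJ, hcJ, h⟩ := hJ g hg
      exact ⟨c, hc, a, ha, hcJ, haJ, by rw [h, add_comm]⟩
  have hfg' := fg_H_one_symm hT hfg
  have hcl : ∀ n, ∀ a ∈ A₀ hT,
      a ∈ Submodule.span X.B₀ (img ((IsLocalRing.maximalIdeal X.R) ^ n)) →
      a ∈ Submodule.span (A₀ hT) (img ((IsLocalRing.maximalIdeal X.R) ^ n)) :=
    closed₀ hT hfg hsep hd
  have hcl' : ∀ n, ∀ a ∈ A₁ hT,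
      a ∈ Submodule.span X.B₁ (img ((IsLocalRing.maximalIdeal X.R) ^ n)) →
      a ∈ Submodule.span (A₁ hT) (img ((IsLocalRing.maximalIdeal X.R) ^ n)) :=
    closed₀ hT.symm hfg' hsep' hd'
  have hfib : FibreIs X := by
    obtain ⟨s', N', hs', h0, h1⟩ := hC.fibre
    have himg' : ∀ h ∈ s', h ∈ X.mSet 1 := by
      intro h hh
      refine ⟨⟨h, (hs' h hh).1⟩, ?_, rfl⟩
      rw [Nbhd.mPow, pow_one]
      exact (hs' h hh).2
    refine ⟨N', fun b hb => ?_, fun b hb => ?_⟩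
    · exact span_mono' (fun h hh => Submodule.subset_span (himg' h hh)) (h0 hb)
    · have h := h1 b hb
      rw [neg_zero, zpow_zero, Units.val_one, one_mul] at h
      exact span_mono' (fun h hh => Submodule.subset_span (himg' h hh)) h
  suffices h : IsAlgebraization X (A₀ hT) (A₁ hT) x ∧ IsoOutside X (A₀ hT) (A₁ hT) x from
    ⟨hC.isLocal, hC.noetherian, hC.complete, hC.residue, hfib, A₀ hT, A₁ hT, x, h.1, h.2,
      birational_of hX hfib h.2⟩
  refine ⟨?_, ?_⟩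
  · refine ⟨⟨?_, ?_, ?_, ?_⟩, hxr, finiteOver_of (finite₀ hT hfg), ?_, ?_, ?_, ?_, ?_⟩
    · exact ⟨hx0, 1, by rw [pow_one, Units.inv_mul]; exact X.B₁.one_mem⟩
    · exact ⟨hx1, 1, by rw [pow_one, Units.inv_mul]; exact X.B₀.one_mem⟩
    · rintro a ⟨ha, n, hn⟩
      refine ⟨n, hn, n, ?_⟩
      rw [inv_inv, ← mul_assoc, ← mul_pow, Units.mul_inv, one_pow, one_mul]
      exact ha
    · rintro a ⟨ha, n, hn⟩
      rw [inv_inv] at hn
      refine ⟨n, hn, n, ?_⟩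
      rw [← mul_assoc, ← mul_pow, Units.inv_mul, one_pow, one_mul]
      exact ha
    · exact finiteOver_of (finite₀ hT.symm hfg')
    · refine le_antisymm (fun a ha => ⟨ha.1.1, ha.2.1⟩) fun a ha => ⟨⟨ha.1, 0, ?_⟩, ha.2, 0, ?_⟩
      · rw [pow_zero, one_mul]
        exact ha.2
      · rw [pow_zero, one_mul]
        exact ha.1
    · rintro a ⟨ha, m, hm'⟩ n
      obtain ⟨b₀, h0, b₁, h1, hb⟩ := hC.h1 (((x⁻¹ : X.Bˣ) : X.B) ^ n * a)
      refine ⟨b₀, ⟨h0, m, ?_⟩, b₁, ⟨h1, n, ?_⟩, hb⟩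
      · have h2 : ((x⁻¹ : X.Bˣ) : X.B) ^ m * b₀ =
            ((x⁻¹ : X.Bˣ) : X.B) ^ n * (((x⁻¹ : X.Bˣ) : X.B) ^ m * a) -
              ((x⁻¹ : X.Bˣ) : X.B) ^ m * b₁ := by
          have h3 : b₀ = ((x⁻¹ : X.Bˣ) : X.B) ^ n * a - b₁ := by rw [hb]; ring
          rw [h3]
          ring
        rw [h2]
        exact X.B₁.sub_mem (X.B₁.mul_mem (X.B₁.pow_mem hx1 _) hm')
          (X.B₁.mul_mem (X.B₁.pow_mem hx1 _) h1)
      · have h2 : (((x⁻¹)⁻¹ : X.Bˣ) : X.B) ^ n * b₁ = a - (x : X.B) ^ n * b₀ := by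
          have h3 : b₁ = ((x⁻¹ : X.Bˣ) : X.B) ^ n * a - b₀ := by rw [hb]; ring
          rw [inv_inv, h3, mul_sub, ← mul_assoc, ← mul_pow, Units.mul_inv, one_pow, one_mul]
        rw [h2]
        exact X.B₀.sub_mem ha (X.B₀.mul_mem (X.B₀.pow_mem hx0 _) h0)
    · refine ⟨fun a ha => ha.1, fun n => ⟨fun b hb => ?_, fun a ha h => ?_⟩⟩
      · have h := hd n b hb
        rw [← hm] at h
        exact h
      · have h2 := hcl n a ha
        rw [← hm] at h2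
        exact h2 h
    · refine ⟨fun a ha => ha.1, fun n => ⟨fun b hb => ?_, fun a ha h => ?_⟩⟩
      · have h := hd' n b hb
        rw [← hm] at h
        exact h
      · have h2 := hcl' n a ha
        rw [← hm] at h2
        exact h2 h
  · obtain ⟨t, M, ht, h0, h1⟩ := hC.iso
    have hxt : (x : X.B) = u * ((X.w⁻¹ : X.Bˣ) : X.B) := by
      have h : (x : X.B) * (X.w * v) = 1 := by rw [← hxv, Units.mul_inv]
      calc (x : X.B) = (x : X.B) * (X.w * v) * (u * ((X.w⁻¹ : X.Bˣ) : X.B)) := by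
            rw [show (x : X.B) * (X.w * v) * (u * ((X.w⁻¹ : X.Bˣ) : X.B)) =
              (x : X.B) * (u * v) * (X.w * ((X.w⁻¹ : X.Bˣ) : X.B)) by ring, huv, Units.mul_inv]
            ring
        _ = _ := by rw [h, one_mul]
    have ht' : ∀ b ∈ t, b ∈ X.B₀ ∧ (x : X.B) * b ∈ X.B₁ := by
      intro b hb
      have h := ht hb
      refine ⟨h.1, ?_⟩
      have h2 := h.2
      rw [zpow_neg, zpow_one] at h2
      rw [hxt, mul_assoc]
      exact X.B₁.mul_mem hu h2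
    have htR : ∀ b ∈ t, b ∈ X.R := by
      intro b hb
      refine ⟨(ht' b hb).1, ?_⟩
      have h : b = ((x⁻¹ : X.Bˣ) : X.B) * ((x : X.B) * b) := by
        rw [← mul_assoc, Units.inv_mul, one_mul]
      rw [h]
      exact X.B₁.mul_mem hx1 (ht' b hb).2
    have hxtR : ∀ b ∈ t, (x : X.B) * b ∈ X.R := fun b hb =>
      ⟨X.B₀.mul_mem hx0 (ht' b hb).1, (ht' b hb).2⟩
    obtain ⟨N', hN'⟩ := iso_aux hT hfg hd hd' hcl hcl' (X.idealOf t x) M (by
      intro r hr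
      rw [← hm] at hr
      refine span_mono' (fun h hh => Submodule.subset_span ?_) (h0 (coe_mem_pow₀ hr))
      exact ⟨⟨h, htR h hh⟩, Ideal.subset_span (Or.inl hh), rfl⟩) (by
      intro r hr
      rw [← hm] at hr
      have h2 := h1 _ (coe_mem_pow₁ hr)
      rw [neg_neg, zpow_one] at h2
      have h3 : (X.w : X.B) * (r : X.B) ∈ (Submodule.span X.B₁ (t : Set X.B)) := h2
      have h4 : ∀ c ∈ Submodule.span X.B₁ (t : Set X.B),
          ((X.w⁻¹ : X.Bˣ) : X.B) * c ∈ Submodule.span X.B₁ (img (X.idealOf t x)) := by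
        intro c hc
        induction hc using Submodule.span_induction with
        | mem y hy =>
          have h5 : ((X.w⁻¹ : X.Bˣ) : X.B) * y = v * ((x : X.B) * y) := by
            rw [hxt, show v * (u * ((X.w⁻¹ : X.Bˣ) : X.B) * y) =
              (u * v) * (((X.w⁻¹ : X.Bˣ) : X.B) * y) by ring, huv, one_mul]
          rw [h5]
          exact Submodule.smul_mem _ (⟨v, hv⟩ : X.B₁) (Submodule.subset_span
            ⟨⟨_, hxtR y hy⟩, Ideal.subset_span (Or.inr ⟨y, hy, rfl⟩), rfl⟩)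
        | zero =>
          rw [mul_zero]
          exact Submodule.zero_mem _
        | add y z _ _ hy hz =>
          rw [mul_add]
          exact Submodule.add_mem _ hy hz
        | smul d y _ hy =>
          have h5 : ((X.w⁻¹ : X.Bˣ) : X.B) * (d • y) = d • (((X.w⁻¹ : X.Bˣ) : X.B) * y) := by
            change ((X.w⁻¹ : X.Bˣ) : X.B) * ((d : X.B) * y) =
              (d : X.B) * (((X.w⁻¹ : X.Bˣ) : X.B) * y)
            ring
          rw [h5]
          exact Submodule.smul_mem _ d hy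
      have h6 := h4 _ h3
      rwa [← mul_assoc, Units.inv_mul, one_mul] at h6)
    refine ⟨t, N', fun b hb => ⟨⟨htR b hb, ?_⟩, hxtR b hb, ?_⟩, ?_⟩
    · rintro a ⟨ha, n, hn⟩
      refine ⟨n, X.B₀.mul_mem (X.B₀.pow_mem (ht' b hb).1 _) ha, ?_⟩
      have h : b ^ n * a = ((x : X.B) * b) ^ n * (((x⁻¹ : X.Bˣ) : X.B) ^ n * a) := by
        rw [mul_pow, show (x : X.B) ^ n * b ^ n * (((x⁻¹ : X.Bˣ) : X.B) ^ n * a) =
          ((x : X.B) * ((x⁻¹ : X.Bˣ) : X.B)) ^ n * (b ^ n * a) by ring, Units.mul_inv, one_pow,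
          one_mul]
      rw [h]
      exact X.B₁.mul_mem (X.B₁.pow_mem (ht' b hb).2 _) hn
    · rintro a ⟨ha, n, hn⟩
      rw [inv_inv] at hn
      refine ⟨n, ?_, X.B₁.mul_mem (X.B₁.pow_mem (ht' b hb).2 _) ha⟩
      have h : ((x : X.B) * b) ^ n * a = b ^ n * ((x : X.B) ^ n * a) := by ring
      rw [h]
      exact X.B₀.mul_mem (X.B₀.pow_mem (ht' b hb).1 _) hn
    · rw [Nbhd.mPow, hm]
      exact hN'

end Pool.Agent.H37A
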