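import Pool.Agent.H37A.Defs

/-!
# Algebraization: the global sections of `𝒪(n)`
-/

set_option autoImplicit false

universe u

namespace Pool.Agent.H37A

variable {k B : Type u} [Field k] [CommRing B] [Algebra k B] {B₀ B₁ R : Subalgebra k B} {x : Bˣ}

/-- Elements of `A₀`. -/
theorem mem_A₀ (hT : Two B₀ B₁ R x) (b : B) : b ∈ A₀ hT ↔ ∃ n, b ∈ H hT n :=
  ⟨fun h => ⟨h.2.choose, h.1, h.2.choose_spec⟩, fun ⟨n, h, h'⟩ => ⟨h, n, h'⟩⟩

theorem mem_H (hT : Two B₀ B₁ R x) {n : ℕ} {b : B} :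
    b ∈ H hT n ↔ b ∈ B₀ ∧ ((x⁻¹ : Bˣ) : B) ^ n * b ∈ B₁ := Iff.rfl

theorem H_mono (hT : Two B₀ B₁ R x) {m n : ℕ} (h : m ≤ n) : H hT m ≤ H hT n := by
  rintro b ⟨hb, hb'⟩
  refine ⟨hb, ?_⟩
  have h1 : ((x⁻¹ : Bˣ) : B) ^ n * b = ((x⁻¹ : Bˣ) : B) ^ (n - m) * (((x⁻¹ : Bˣ) : B) ^ m * b) := by
    rw [← mul_assoc, ← pow_add, Nat.sub_add_cancel h]
  show ((x⁻¹ : Bˣ) : B) ^ n * b ∈ B₁
  rw [h1]
  exact B₁.mul_mem (B₁.pow_mem hT.inv_mem _) hb'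

theorem inv_pow_mul (x : Bˣ) (n : ℕ) (b : B) :
    ((x⁻¹ : Bˣ) : B) ^ n * ((x : B) ^ n * b) = b := by
  rw [← mul_assoc, ← mul_pow, Units.inv_mul, one_pow, one_mul]

theorem pow_mul_inv (x : Bˣ) (n : ℕ) (b : B) :
    (x : B) ^ n * (((x⁻¹ : Bˣ) : B) ^ n * b) = b := by
  rw [← mul_assoc, ← mul_pow, Units.mul_inv, one_pow, one_mul]

/-- `x ^ (-c) h = u₀ + u₁`, `h = x ^ c u₁ + x ^ c u₀`. -/
theorem H_split (hT : Two B₀ B₁ R x) {n c : ℕ} {h : B} (hh : h ∈ H hT (n + c)) :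
    ∃ a ∈ H hT c, ∃ b ∈ H hT n, h = a + (x : B) ^ c * b := by
  obtain ⟨h0, h1⟩ := hh
  obtain ⟨u₀, hu₀, u₁, hu₁, hu⟩ := hT.h1 (((x⁻¹ : Bˣ) : B) ^ c * h)
  have h2 : h = (x : B) ^ c * u₁ + (x : B) ^ c * u₀ := by
    rw [← mul_add, add_comm u₁, ← hu, pow_mul_inv]
  refine ⟨(x : B) ^ c * u₁, ⟨?_, ?_⟩, u₀, ⟨hu₀, ?_⟩, h2⟩
  · show (x : B) ^ c * u₁ ∈ B₀
    rw [show (x : B) ^ c * u₁ = h - (x : B) ^ c * u₀ by rw [h2]; ring]
    exact B₀.sub_mem h0 (B₀.mul_mem (B₀.pow_mem hT.mem c) hu₀)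
  · show ((x⁻¹ : Bˣ) : B) ^ c * ((x : B) ^ c * u₁) ∈ B₁
    rw [inv_pow_mul]
    exact hu₁
  · show ((x⁻¹ : Bˣ) : B) ^ n * u₀ ∈ B₁
    have h3 : ((x⁻¹ : Bˣ) : B) ^ n * u₀ =
        ((x⁻¹ : Bˣ) : B) ^ (n + c) * h - ((x⁻¹ : Bˣ) : B) ^ n * u₁ := by
      rw [pow_add, mul_assoc, hu]; ring
    rw [h3]
    exact B₁.sub_mem h1 (B₁.mul_mem (B₁.pow_mem hT.inv_mem n) hu₁)

/-- Sections of `𝔞 𝒪` over `U₀ ∩ U₁` are sums of sections over the charts. -/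
theorem split_span (hT : Two B₀ B₁ R x) (I : Ideal R) {y : B} (z : B)
    (h0 : y ∈ Submodule.span B₀ (img I)) :
    ∃ u₀ ∈ Submodule.span B₀ (img I), ∃ u₁ ∈ Submodule.span B₁ (img I), z * y = u₀ + u₁ := by
  have key : ∀ z : B, ∃ u₀ ∈ Submodule.span B₀ (img I), ∃ u₁ ∈ Submodule.span B₁ (img I),
      z * y = u₀ + u₁ := by
    refine Submodule.span_induction (p := fun y _ => ∀ z : B, ∃ u₀ ∈ Submodule.span B₀ (img I),
      ∃ u₁ ∈ Submodule.span B₁ (img I), z * y = u₀ + u₁) ?_ ?_ ?_ ?_ h0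
    · intro r hr z
      obtain ⟨p, hp, q, hq, h⟩ := hT.h1 z
      refine ⟨p * r, Submodule.smul_mem _ (⟨p, hp⟩ : B₀) (Submodule.subset_span hr), q * r,
        Submodule.smul_mem _ (⟨q, hq⟩ : B₁) (Submodule.subset_span hr), ?_⟩
      rw [h, add_mul]
    · intro z
      exact ⟨0, Submodule.zero_mem _, 0, Submodule.zero_mem _, by simp⟩
    · intro y y' _ _ hy hy' z
      obtain ⟨p, hp, q, hq, h⟩ := hy z
      obtain ⟨p', hp', q', hq', h'⟩ := hy' z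
      exact ⟨p + p', Submodule.add_mem _ hp hp', q + q', Submodule.add_mem _ hq hq', by
        rw [mul_add, h, h']; ring⟩
    · intro c y _ hy z
      obtain ⟨p, hp, q, hq, h⟩ := hy (z * c)
      refine ⟨p, hp, q, hq, ?_⟩
      rw [← h]
      show z * ((c : B) * y) = z * c * y
      ring
  exact key z

/-- The same for sections of `𝔞 𝒪`, `𝔞` an ideal of `R`, for `c = 1`. -/
theorem HI_split (hT : Two B₀ B₁ R x) (I : Ideal R) {n : ℕ} {h : B}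
    (h0 : h ∈ Submodule.span B₀ (img I))
    (h1 : ((x⁻¹ : Bˣ) : B) ^ (n + 1) * h ∈ Submodule.span B₁ (img I)) :
    ∃ a b, (a ∈ Submodule.span B₀ (img I) ∧
      ((x⁻¹ : Bˣ) : B) * a ∈ Submodule.span B₁ (img I)) ∧
      (b ∈ Submodule.span B₀ (img I) ∧
        ((x⁻¹ : Bˣ) : B) ^ n * b ∈ Submodule.span B₁ (img I)) ∧ h = a + (x : B) * b := by
  obtain ⟨u₀, hu₀, u₁, hu₁, hu⟩ := split_span hT I ((x⁻¹ : Bˣ) : B) h0
  have h2 : h = (x : B) * u₁ + (x : B) * u₀ := by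
    have h3 := pow_mul_inv x 1 h
    rw [pow_one, pow_one, hu] at h3
    rw [← mul_add, add_comm u₁, h3]
  refine ⟨(x : B) * u₁, u₀, ⟨?_, ?_⟩, ⟨hu₀, ?_⟩, h2⟩
  · rw [show (x : B) * u₁ = h - (x : B) * u₀ by rw [h2]; ring]
    exact Submodule.sub_mem _ h0 (Submodule.smul_mem _ (⟨x, hT.mem⟩ : B₀) hu₀)
  · have h3 := inv_pow_mul x 1 u₁
    rw [pow_one, pow_one] at h3
    rw [h3]
    exact hu₁
  · have h3 : ((x⁻¹ : Bˣ) : B) ^ n * u₀ =
        ((x⁻¹ : Bˣ) : B) ^ (n + 1) * h - ((x⁻¹ : Bˣ) : B) ^ n * u₁ := by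
      rw [pow_succ, mul_assoc, hu]; ring
    rw [h3]
    exact Submodule.sub_mem _ h1
      (Submodule.smul_mem _ (⟨_, B₁.pow_mem hT.inv_mem n⟩ : B₁) hu₁)

/-- `H 1` is finitely generated. -/
theorem fg_H_one (hT : Two B₀ B₁ R x) (hc : ∃ (v : ℕ) (c : Fin v → B), ∀ b : B,
    ∃ r : Fin v → B, ∃ b₀ ∈ B₀, ∃ b₁ ∈ B₁, (∀ i, r i ∈ B₀ ∧ r i ∈ B₁) ∧
      b = b₀ + ((x⁻¹ : Bˣ) : B) * b₁ + ∑ i, r i * c i) : (H hT 1).FG := by
  obtain ⟨v, c, hc⟩ := hc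
  choose c₀ hc₀ c₁ hc₁ hcc using fun i => hT.h1 (c i)
  obtain ⟨e₀, he₀, e₁, he₁, hee⟩ := hT.h1 (x : B)
  choose g₀ hg₀ g₁ hg₁ hgg using fun i => hT.h1 ((x : B) * c₁ i)
  have hx1 : ∀ b : B, ((x⁻¹ : Bˣ) : B) * ((x : B) * b) = b := fun b => by
    rw [← mul_assoc, Units.inv_mul, one_mul]
  have hx2 : ∀ b : B, (x : B) * (((x⁻¹ : Bˣ) : B) * b) = b := fun b => by
    rw [← mul_assoc, Units.mul_inv, one_mul]
  have hone : (1 : B) ∈ H hT 1 := by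
    refine ⟨B₀.one_mem, ?_⟩
    show ((x⁻¹ : Bˣ) : B) ^ 1 * 1 ∈ B₁
    rw [pow_one, mul_one]; exact hT.inv_mem
  have he : e₀ ∈ H hT 1 := by
    refine ⟨he₀, ?_⟩
    show ((x⁻¹ : Bˣ) : B) ^ 1 * e₀ ∈ B₁
    rw [pow_one, show e₀ = (x : B) * 1 - e₁ by rw [mul_one, hee]; ring, mul_sub, hx1]
    exact B₁.sub_mem B₁.one_mem (B₁.mul_mem hT.inv_mem he₁)
  have hg : ∀ i, g₀ i ∈ H hT 1 := by
    intro i
    refine ⟨hg₀ i, ?_⟩
    show ((x⁻¹ : Bˣ) : B) ^ 1 * g₀ i ∈ B₁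
    rw [pow_one, show g₀ i = (x : B) * c₁ i - g₁ i by rw [hgg]; ring, mul_sub, hx1]
    exact B₁.sub_mem (hc₁ i) (B₁.mul_mem hT.inv_mem (hg₁ i))
  have hspan : H hT 1 = Submodule.span R (insert 1 (insert e₀ (Set.range g₀))) := by
    refine le_antisymm ?_ (Submodule.span_le.2 ?_)
    · rintro h ⟨h0, h1⟩
      have h1' : ((x⁻¹ : Bˣ) : B) * h ∈ B₁ := by
        have : ((x⁻¹ : Bˣ) : B) ^ 1 * h ∈ B₁ := h1
        rwa [pow_one] at this
      obtain ⟨r, b₀, hb₀, b₁, hb₁, hr, hb⟩ := hc (((x⁻¹ : Bˣ) : B) * h)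
      have hb' : ((x⁻¹ : Bˣ) : B) * h = (b₀ + ∑ i, r i * c₀ i) + ((x⁻¹ : Bˣ) : B) * b₁ +
          ∑ i, r i * c₁ i := by
        rw [hb]
        simp only [hcc, mul_add, Finset.sum_add_distrib]
        ring
      set ρ : B := b₀ + ∑ i, r i * c₀ i with hρ
      have hρ0 : ρ ∈ B₀ := B₀.add_mem hb₀ (B₀.sum_mem fun i _ => B₀.mul_mem (hr i).1 (hc₀ i))
      have hρ1 : ρ ∈ B₁ := by
        rw [show ρ = ((x⁻¹ : Bˣ) : B) * h - ((x⁻¹ : Bˣ) : B) * b₁ - ∑ i, r i * c₁ i by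
          rw [hb']; ring]
        exact B₁.sub_mem (B₁.sub_mem h1' (B₁.mul_mem hT.inv_mem hb₁))
          (B₁.sum_mem fun i _ => B₁.mul_mem (hr i).2 (hc₁ i))
      have hh : h = ρ * x + b₁ + ∑ i, r i * ((x : B) * c₁ i) := by
        rw [← hx2 h, hb', mul_add, mul_add, hx2, Finset.mul_sum, mul_comm (x : B) ρ]
        congr 1
        exact Finset.sum_congr rfl fun i _ => by ring
      set d : B := h - ρ * e₀ - ∑ i, r i * g₀ i with hd
      have hd0 : d ∈ B₀ := B₀.sub_mem (B₀.sub_mem h0 (B₀.mul_mem hρ0 he₀))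
        (B₀.sum_mem fun i _ => B₀.mul_mem (hr i).1 (hg₀ i))
      have hd1 : d ∈ B₁ := by
        have h3 : d = ρ * e₁ + b₁ + ∑ i, r i * g₁ i := by
          have hs : ∑ i, r i * ((x : B) * c₁ i) = ∑ i, r i * g₀ i + ∑ i, r i * g₁ i := by
            rw [← Finset.sum_add_distrib]
            exact Finset.sum_congr rfl fun i _ => by rw [hgg i]; ring
          rw [hd, hh, hs]
          linear_combination ρ * hee
        rw [h3]
        exact B₁.add_mem (B₁.add_mem (B₁.mul_mem hρ1 he₁) hb₁)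
          (B₁.sum_mem fun i _ => B₁.mul_mem (hr i).2 (hg₁ i))
      have hsum : h = (⟨d, (hT.memR d).2 ⟨hd0, hd1⟩⟩ : R) • (1 : B) +
          (⟨ρ, (hT.memR ρ).2 ⟨hρ0, hρ1⟩⟩ : R) • e₀ +
          ∑ i, (⟨r i, (hT.memR _).2 (hr i)⟩ : R) • g₀ i := by
        show h = d * 1 + ρ * e₀ + ∑ i, r i * g₀ i
        rw [hd]; ring
      rw [hsum]
      refine Submodule.add_mem _ (Submodule.add_mem _ (Submodule.smul_mem _ _
        (Submodule.subset_span (by simp))) (Submodule.smul_mem _ _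
        (Submodule.subset_span (by simp)))) (Submodule.sum_mem _ fun i _ =>
          Submodule.smul_mem _ _ (Submodule.subset_span (by simp)))
    · rintro b (rfl | rfl | ⟨i, rfl⟩)
      · exact hone
      · exact he
      · exact hg i
  rw [hspan]
  exact Submodule.fg_span (((Set.finite_range g₀).insert e₀).insert 1)

/-- Multiplication with a function, as a map of `R`-modules. -/
def mulL (R : Subalgebra k B) (y : B) : B →ₗ[R] B where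
  toFun b := y * b
  map_add' := mul_add y
  map_smul' r b := by
    show y * ((r : B) * b) = r * (y * b)
    ring

theorem H_succ (hT : Two B₀ B₁ R x) (n : ℕ) :
    H hT (n + 1) = H hT 1 ⊔ (H hT n).map (mulL R (x : B)) := by
  refine le_antisymm ?_ (sup_le (H_mono hT (by omega)) ?_)
  · intro h hh
    obtain ⟨a, ha, b, hb, rfl⟩ := H_split hT hh
    rw [pow_one]
    exact Submodule.add_mem_sup ha ⟨b, hb, rfl⟩
  · rintro _ ⟨b, ⟨hb, hb'⟩, rfl⟩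
    refine ⟨B₀.mul_mem hT.mem hb, ?_⟩
    show ((x⁻¹ : Bˣ) : B) ^ (n + 1) * ((x : B) * b) ∈ B₁
    rw [pow_succ, mul_assoc, ← mul_assoc ((x⁻¹ : Bˣ) : B) (x : B) b, Units.inv_mul, one_mul]
    exact hb'

theorem fg_H (hT : Two B₀ B₁ R x) (h1 : (H hT 1).FG) (n : ℕ) (hn : 0 < n) : (H hT n).FG := by
  induction n with
  | zero => exact absurd hn (lt_irrefl 0)
  | succ n ih =>
    rcases Nat.eq_zero_or_pos n with rfl | h
    · exact h1
    · rw [H_succ]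
      exact h1.sup ((ih h).map _)

/-- `A₀` is a finite `R[x]`-module. -/
theorem finite₀ (hT : Two B₀ B₁ R x) (h1 : (H hT 1).FG) :
    ∃ s : Finset B, (∀ b ∈ s, b ∈ A₀ hT) ∧ ∀ a ∈ A₀ hT,
      a ∈ Submodule.span (Algebra.adjoin R {(x : B)}) (s : Set B) := by
  obtain ⟨s, hs⟩ := h1
  have hR : ∀ b ∈ Submodule.span R (s : Set B),
      b ∈ Submodule.span (Algebra.adjoin R {(x : B)}) (s : Set B) := fun b hb =>
    Submodule.span_le_restrictScalars R (Algebra.adjoin R {(x : B)}) (s : Set B) hb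
  refine ⟨s, fun b hb => (mem_A₀ hT b).2 ⟨1, by rw [← hs]; exact Submodule.subset_span hb⟩, ?_⟩
  have key : ∀ n, ∀ a ∈ H hT n, a ∈ Submodule.span (Algebra.adjoin R {(x : B)}) (s : Set B) := by
    intro n
    induction n with
    | zero => intro a ha; exact hR a (by rw [hs]; exact H_mono hT (by omega) ha)
    | succ n ih =>
      intro a ha
      obtain ⟨a', ha', b, hb, rfl⟩ := H_split hT ha
      rw [pow_one]
      exact Submodule.add_mem _ (hR a' (by rw [hs]; exact ha'))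
        (Submodule.smul_mem _ (⟨x, Algebra.subset_adjoin rfl⟩ : Algebra.adjoin R {(x : B)})
          (ih b hb))
  intro a ha
  obtain ⟨n, hn⟩ := (mem_A₀ hT a).1 ha
  exact key n a hn

/-- `H 1` for the other chart. -/
theorem fg_H_one_symm (hT : Two B₀ B₁ R x) (h1 : (H hT 1).FG) : (H hT.symm 1).FG := by
  have h : H hT.symm 1 = (H hT 1).map (mulL R ((x⁻¹ : Bˣ) : B)) := by
    ext b
    constructor
    · rintro ⟨hb, hb'⟩
      have hb1 : (x : B) * b ∈ B₀ := by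
        have : (((x⁻¹)⁻¹ : Bˣ) : B) ^ 1 * b ∈ B₀ := hb'
        rwa [pow_one, inv_inv] at this
      refine ⟨(x : B) * b, ⟨hb1, ?_⟩, ?_⟩
      · show ((x⁻¹ : Bˣ) : B) ^ 1 * ((x : B) * b) ∈ B₁
        rw [pow_one, ← mul_assoc, Units.inv_mul, one_mul]
        exact hb
      · show ((x⁻¹ : Bˣ) : B) * ((x : B) * b) = b
        rw [← mul_assoc, Units.inv_mul, one_mul]
    · rintro ⟨h, ⟨h0, h1⟩, rfl⟩
      have h1' : ((x⁻¹ : Bˣ) : B) ^ 1 * h ∈ B₁ := h1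
      rw [pow_one] at h1'
      refine ⟨h1', ?_⟩
      show (((x⁻¹)⁻¹ : Bˣ) : B) ^ 1 * (((x⁻¹ : Bˣ) : B) * h) ∈ B₀
      rw [pow_one, inv_inv, ← mul_assoc, Units.mul_inv, one_mul]
      exact h0
  rw [h]
  exact h1.map _

end Pool.Agent.H37A
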